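import Mathlib

/-!
# Graph bootstrap percolation: definitions and the criterion for a new copy
-/

set_option autoImplicit false

namespace Q274.GB

open SimpleGraph Function

variable {V W : Type}

/-- `n_H(G)`: the number of copies of `H` in `G`, that is of the subgraphs of `G` isomorphic to `H`. -/
noncomputable def copies (H : SimpleGraph W) (G : SimpleGraph V) : ℕ :=
  Nat.card {S : G.Subgraph // Nonempty (H ≃g S.coe)}

/-- One round of the `H`-process: all the pairs `x y` are added for which `G + xy` has more copies of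
`H` than `G`. -/
def step (H : SimpleGraph W) (G : SimpleGraph V) : SimpleGraph V where
  Adj x y := x ≠ y ∧ (G.Adj x y ∨ copies H G < copies H (G ⊔ edge x y))
  symm := ⟨by
    rintro x y ⟨h, h'⟩
    refine ⟨h.symm, ?_⟩
    rcases h' with h' | h'
    · exact Or.inl h'.symm
    · right; rwa [edge_comm]⟩
  loopless := ⟨fun _ h => h.1 rfl⟩

/-- The `H`-process on `G`. -/
def proc (H : SimpleGraph W) (G : SimpleGraph V) : ℕ → SimpleGraph V
  | 0 => G
  | i + 1 => step H (proc H G i)

/-- The running time `τ_H(G) = min {t : G_t = G_{t+1}}`. -/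
noncomputable def runTime (H : SimpleGraph W) (G : SimpleGraph V) : ℕ :=
  sInf {t | proc H G t = proc H G (t + 1)}

/-- The maximum running time `M_H(n)` over the graphs with `n` vertices. -/
noncomputable def maxTime (H : SimpleGraph W) (n : ℕ) : ℕ :=
  sSup (Set.range fun G : SimpleGraph (Fin n) => runTime H G)

/-- `H^{u+}`: one new vertex (`none`), joined only to `u`. -/
def pendant (H : SimpleGraph W) (u : W) : SimpleGraph (Option W) where
  Adj
    | some a, some b => H.Adj a b
    | some a, none => a = u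
    | none, some b => b = u
    | none, none => False
  symm := ⟨by
    rintro (_ | a) (_ | b) h
    · exact h
    · exact h
    · exact h
    · exact SimpleGraph.Adj.symm (G := H) h⟩
  loopless := ⟨by
    rintro (_ | a) h
    · exact h
    · exact H.loopless.irrefl a h⟩

/-- The wheel `W_6`: the hub `6` joined to all vertices of the cycle `0, 1, 2, 3, 4, 5`. -/
def wheel : SimpleGraph (Fin 7) where
  Adj a b := a ≠ b ∧ (a = 6 ∨ b = 6 ∨ (a.val + 1) % 6 = b.val ∨ (b.val + 1) % 6 = a.val)
  symm := ⟨by
    rintro a b ⟨h, h'⟩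
    refine ⟨h.symm, ?_⟩
    tauto⟩
  loopless := ⟨fun _ h => h.1 rfl⟩

instance : DecidableRel wheel.Adj := fun a b => by unfold wheel; infer_instance

/-- A new copy of `H` that uses the pair `x y`. -/
def NewCopy (H : SimpleGraph W) (G : SimpleGraph V) (x y : V) : Prop :=
  ∃ f : W → V, Injective f ∧ (∀ a b, H.Adj a b → (G ⊔ edge x y).Adj (f a) (f b)) ∧
    ∃ a b, H.Adj a b ∧ ¬ G.Adj (f a) (f b)

/-- The subgraph with the same vertices and edges in a larger graph. -/
def incl {G G' : SimpleGraph V} (h : G ≤ G') (S : G.Subgraph) : G'.Subgraph where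
  verts := S.verts
  Adj := S.Adj
  adj_sub := fun e => h (S.adj_sub e)
  edge_vert := fun e => S.edge_vert e
  symm := S.symm

/-- The subgraph given by an injective homomorphism. -/
def imageSub {H : SimpleGraph W} {G : SimpleGraph V} (f : W → V)
    (hf : ∀ a b, H.Adj a b → G.Adj (f a) (f b)) : G.Subgraph where
  verts := Set.range f
  Adj x y := ∃ a b, H.Adj a b ∧ f a = x ∧ f b = y
  adj_sub := by rintro _ _ ⟨a, b, h, rfl, rfl⟩; exact hf a b h
  edge_vert := by rintro _ _ ⟨a, b, h, rfl, rfl⟩; exact ⟨a, rfl⟩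
  symm := ⟨by rintro _ _ ⟨a, b, h, rfl, rfl⟩; exact ⟨b, a, h.symm, rfl, rfl⟩⟩

theorem imageSub_iso {H : SimpleGraph W} {G : SimpleGraph V} (f : W → V) (hi : Injective f)
    (hf : ∀ a b, H.Adj a b → G.Adj (f a) (f b)) : Nonempty (H ≃g (imageSub f hf).coe) := by
  refine ⟨⟨Equiv.ofInjective f hi, ?_⟩⟩
  intro a b
  constructor
  · rintro ⟨a', b', h, h1, h2⟩
    have h1' : a' = a := hi h1
    have h2' : b' = b := hi h2
    subst h1' h2'
    exact h
  · intro h
    exact ⟨a, b, h, rfl, rfl⟩

theorem copies_lt_iff [Finite V] (H : SimpleGraph W) (G : SimpleGraph V) (x y : V) :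
    copies H G < copies H (G ⊔ edge x y) ↔ NewCopy H G x y := by
  classical
  have hle : G ≤ G ⊔ edge x y := le_sup_left
  constructor
  · intro hlt
    by_contra hno
    refine absurd hlt (not_lt.mpr ?_)
    have key : ∀ S : (G ⊔ edge x y).Subgraph, Nonempty (H ≃g S.coe) → ∀ a b, S.Adj a b → G.Adj a b := by
      rintro S ⟨φ⟩ a b hab
      by_contra hG
      apply hno
      refine ⟨fun w => (φ w : V), ?_, ?_, ?_⟩
      · intro w w' h
        exact φ.injective (Subtype.ext h)
      · intro w w' h
        have := φ.map_rel_iff.mpr h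
        exact S.adj_sub this
      · have ha := S.edge_vert hab
        have hb := S.edge_vert hab.symm
        refine ⟨φ.symm ⟨a, ha⟩, φ.symm ⟨b, hb⟩, ?_, ?_⟩
        · rw [← φ.map_rel_iff]
          simpa using hab
        · simpa using hG
    let F : {S : (G ⊔ edge x y).Subgraph // Nonempty (H ≃g S.coe)} →
        {S : G.Subgraph // Nonempty (H ≃g S.coe)} := fun S =>
      ⟨{ verts := S.1.verts
         Adj := S.1.Adj
         adj_sub := fun e => key S.1 S.2 _ _ e
         edge_vert := fun e => S.1.edge_vert e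
         symm := S.1.symm }, S.2⟩
    refine Nat.card_le_card_of_injective F ?_
    intro S T hST
    have h1 : S.1.verts = T.1.verts := congrArg (fun Z => Z.1.verts) hST
    have h2 : S.1.Adj = T.1.Adj := congrArg (fun Z => Z.1.Adj) hST
    exact Subtype.ext (Subgraph.ext h1 h2)
  · rintro ⟨f, hi, hf, a, b, hab, hG⟩
    let F : {S : G.Subgraph // Nonempty (H ≃g S.coe)} →
        {S : (G ⊔ edge x y).Subgraph // Nonempty (H ≃g S.coe)} := fun S => ⟨incl hle S.1, S.2⟩
    have hinj : Injective F := by
      intro S T hST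
      have h1 : S.1.verts = T.1.verts := congrArg (fun Z => Z.1.verts) hST
      have h2 : S.1.Adj = T.1.Adj := congrArg (fun Z => Z.1.Adj) hST
      exact Subtype.ext (Subgraph.ext h1 h2)
    let T0 : {S : (G ⊔ edge x y).Subgraph // Nonempty (H ≃g S.coe)} :=
      ⟨imageSub f hf, imageSub_iso f hi hf⟩
    have hnot : T0 ∉ Set.range F := by
      rintro ⟨S, hS⟩
      have h2 : S.1.Adj = (imageSub f hf).Adj := congrArg (fun Z => Z.1.Adj) hS
      have h3 : S.1.Adj (f a) (f b) := by rw [h2]; exact ⟨a, b, hab, rfl, rfl⟩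
      exact hG (S.1.adj_sub h3)
    unfold copies
    rw [← Nat.card_range_of_injective hinj]
    have hfin : Finite {S : (G ⊔ edge x y).Subgraph // Nonempty (H ≃g S.coe)} := inferInstance
    have hlt : (Set.range F).ncard < (Set.univ : Set {S : (G ⊔ edge x y).Subgraph //
        Nonempty (H ≃g S.coe)}).ncard := by
      apply Set.ncard_lt_ncard
      · rw [Set.ssubset_univ_iff]
        intro h
        exact hnot (h ▸ Set.mem_univ _)
      · exact Set.toFinite _
    rwa [Set.ncard_univ] at hlt

theorem step_adj [Finite V] (H : SimpleGraph W) (G : SimpleGraph V) (x y : V) :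
    (step H G).Adj x y ↔ x ≠ y ∧ (G.Adj x y ∨ NewCopy H G x y) := by
  change (x ≠ y ∧ (G.Adj x y ∨ copies H G < copies H (G ⊔ edge x y))) ↔ _
  rw [copies_lt_iff]

theorem le_step (H : SimpleGraph W) (G : SimpleGraph V) : G ≤ step H G :=
  fun _ _ h => ⟨h.ne, Or.inl h⟩

theorem proc_le (H : SimpleGraph W) (G : SimpleGraph V) (i : ℕ) :
    proc H G i ≤ proc H G (i + 1) := le_step H _

theorem proc_mono (H : SimpleGraph W) (G : SimpleGraph V) : Monotone (proc H G) :=
  monotone_nat_of_le_succ (proc_le H G)

theorem proc_const (H : SimpleGraph W) (G : SimpleGraph V) {t : ℕ}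
    (h : proc H G t = proc H G (t + 1)) (k : ℕ) : proc H G (t + k) = proc H G (t + k + 1) := by
  induction k with
  | zero => exact h
  | succ k ih =>
    change step H (proc H G (t + k)) = step H (proc H G (t + k + 1))
    rw [← ih]

theorem exists_stable [Finite V] (H : SimpleGraph W) (G : SimpleGraph V) :
    ∃ t, proc H G t = proc H G (t + 1) := by
  obtain ⟨n, hn⟩ := WellFoundedGT.monotone_chain_condition ⟨proc H G, proc_mono H G⟩
  exact ⟨n, hn (n + 1) (Nat.le_succ n)⟩

/-- If the process moves at time `i` then the running time is larger than `i`. -/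
theorem lt_runTime [Finite V] (H : SimpleGraph W) (G : SimpleGraph V) (i : ℕ)
    (h : proc H G i ≠ proc H G (i + 1)) : i < runTime H G := by
  by_contra hle
  push Not at hle
  have hmem : runTime H G ∈ {t | proc H G t = proc H G (t + 1)} := Nat.sInf_mem (exists_stable H G)
  obtain ⟨k, hk⟩ := Nat.exists_eq_add_of_le hle
  have := proc_const H G hmem k
  rw [← hk] at this
  exact h this

theorem runTime_le (H : SimpleGraph W) (G : SimpleGraph V) (i : ℕ)
    (h : proc H G i = proc H G (i + 1)) : runTime H G ≤ i := Nat.sInf_le h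

theorem runTime_le_maxTime (H : SimpleGraph W) {n : ℕ} (G : SimpleGraph (Fin n)) :
    runTime H G ≤ maxTime H n := by
  apply le_csSup
  · exact (Set.finite_range _).bddAbove
  · exact ⟨G, rfl⟩

theorem maxTime_le (H : SimpleGraph W) {n B : ℕ} (h : ∀ G : SimpleGraph (Fin n), runTime H G ≤ B) :
    maxTime H n ≤ B := by
  refine csSup_le (Set.range_nonempty _) ?_
  rintro _ ⟨G, rfl⟩
  exact h G

end Q274.GB
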