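import Pool.Agent.Q274.GB.Struct

/-!
# Lower bounds for the running times of `W_6` and of `W_6` with a pendant edge at the hub
-/

set_option autoImplicit false

namespace Q274.GB

open SimpleGraph Function

/-- The wheel with a pendant edge at the hub. -/
abbrev PW : SimpleGraph (Option (Fin 7)) := pendant wheel 6

section

variable {V : Type}

theorem exists_fresh [Finite V] (hcard : 8 ≤ Nat.card V) (l : List V) (hl : l.length ≤ 7) :
    ∃ p, p ∉ l := by
  classical
  have := Fintype.ofFinite V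
  by_contra h
  push Not at h
  have h1 : (Finset.univ : Finset V) ⊆ l.toFinset := fun x _ => List.mem_toFinset.mpr (h x)
  have h2 := Finset.card_le_card h1
  have h3 := l.toFinset_card_le
  rw [Finset.card_univ, ← Nat.card_eq_fintype_card] at h2
  omega

theorem wh_path {G : SimpleGraph V} {o x a b c d y : V} (hn : [x, a, b, c, d, y].Nodup)
    (h1 : G.Adj x a) (h2 : G.Adj a b) (h3 : G.Adj b c) (h4 : G.Adj c d) (h5 : G.Adj d y)
    (h6 : G.Adj y x) (ho : ∀ z ∈ [x, a, b, c, d, y], G.Adj o z) :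
    Wh G o ![x, a, b, c, d, y] := by
  have hsp : ∀ i : Fin 6, G.Adj o (![x, a, b, c, d, y] i) := by
    intro i
    fin_cases i <;> exact ho _ (by simp)
  refine ⟨vec_inj hn, fun i => (hsp i).ne, hsp, fun i => ?_⟩
  fin_cases i
  · exact h1
  · exact h2
  · exact h3
  · exact h4
  · exact h5
  · exact h6

/-- If `o` is adjacent to all other vertices, the ends of a path with five edges get joined. -/
theorem rim_close [Finite V] {G : SimpleGraph V} {o x y : V} (hu : ∀ z, z ≠ o → G.Adj o z)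
    (hcard : 8 ≤ Nat.card V) (hx : ∃ a b c d, [x, a, b, c, d, y].Nodup ∧ G.Adj x a ∧ G.Adj a b ∧
      G.Adj b c ∧ G.Adj c d ∧ G.Adj d y ∧ (∀ z ∈ [x, a, b, c, d, y], z ≠ o)) :
    (step PW G).Adj x y := by
  obtain ⟨a, b, c, d, hn, h1, h2, h3, h4, h5, ho⟩ := hx
  rw [step_adj]
  have hxy : x ≠ y := by rintro rfl; simp at hn
  refine ⟨hxy, ?_⟩
  by_cases hG : G.Adj x y
  · exact Or.inl hG
  right
  rw [newCopy_pendant]
  obtain ⟨p, hp⟩ := exists_fresh hcard [o, x, a, b, c, d, y] (by simp)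
  have hle : G ≤ G ⊔ edge x y := le_sup_left
  have hpo : o ≠ p := by rintro rfl; simp at hp
  refine ⟨o, ![x, a, b, c, d, y], p, ⟨wh_path hn (hle h1) (hle h2) (hle h3) (hle h4) (hle h5) ?_
    (fun z hz => hle (hu z (ho z hz))), hpo, ?_, hle (hu p hpo.symm)⟩, ?_⟩
  · rw [sup_edge_adj]; exact Or.inr ⟨hxy.symm, Or.inr ⟨rfl, rfl⟩⟩
  · intro i hi
    apply hp
    fin_cases i <;> simp at hi <;> simp [← hi]
  · intro W
    exact hG (W.wh.rim 5).symm

end

/-! ### the pendant wheel -/

/-- The cone over a path. -/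
def conePath (m : ℕ) : SimpleGraph (Fin (m + 1)) where
  Adj x y := x ≠ y ∧ (x = 0 ∨ y = 0 ∨ x.val + 1 = y.val ∨ y.val + 1 = x.val)
  symm := ⟨by rintro x y ⟨h, h'⟩; exact ⟨h.symm, by tauto⟩⟩
  loopless := ⟨fun _ h => h.1 rfl⟩

structure InvA (m i : ℕ) (G : SimpleGraph (Fin (m + 1))) : Prop where
  par : ∀ a b : Fin (m + 1), a ≠ 0 → b ≠ 0 → G.Adj a b →
    a.val % 2 ≠ b.val % 2 ∧ a.val ≤ b.val + 5 ^ i ∧ b.val ≤ a.val + 5 ^ i
  univ : ∀ a : Fin (m + 1), a ≠ 0 → G.Adj 0 a
  pos : ∀ a b : Fin (m + 1), a ≠ 0 → b.val = a.val + 5 ^ i → G.Adj a b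

theorem invA_zero (m : ℕ) : InvA m 0 (conePath m) where
  par := by
    rintro a b ha hb ⟨-, h | h | h | h⟩
    · exact absurd h ha
    · exact absurd h hb
    · omega
    · omega
  univ := fun a ha => ⟨ha.symm, Or.inl rfl⟩
  pos := by
    intro a b ha hab
    refine ⟨?_, Or.inr (Or.inr (Or.inl ?_))⟩
    · rintro rfl; omega
    · omega

theorem invA_succ {m i : ℕ} (hm : 7 ≤ m) {G : SimpleGraph (Fin (m + 1))} (I : InvA m i G) :
    InvA m (i + 1) (step PW G) where
  par := by
    intro x y hx hy h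
    rw [step_adj] at h
    obtain ⟨hxy, h⟩ := h
    have hD : 5 ^ (i + 1) = 5 * 5 ^ i := by ring
    rw [hD]
    rcases h with h | h
    · have := I.par x y hx hy h; omega
    rw [newCopy_pendant] at h
    obtain ⟨h, r, p, W, hW⟩ := h
    have hh : h = 0 := by
      refine hub_eq (fun z => decide (z.val % 2 = 0)) 0 ?_ hxy W.wh
      intro a b ha hb hab
      have := (I.par a b ha hb hab).1
      intro hc
      have h1 := Nat.mod_two_eq_zero_or_one a.val
      have h2 := Nat.mod_two_eq_zero_or_one b.val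
      rcases h1 with h1 | h1 <;> rcases h2 with h2 | h2 <;> simp [h1, h2] at hc this
    subst hh
    have hw : ¬ Wh G 0 r := fun w => hW ⟨w, W.hp, W.rp, I.univ p W.hp.symm⟩
    obtain ⟨a, b, c, d, hn, h1, h2, h3, h4, h5, ho⟩ := rim_path hx hy W.wh hw
    have ne : ∀ z ∈ [x, a, b, c, d, y], z ≠ 0 := fun z hz => (ho z hz).ne'
    have na := ne a (by simp)
    have nb := ne b (by simp)
    have nc := ne c (by simp)
    have nd := ne d (by simp)
    have g1 := I.par x a hx na h1
    have g2 := I.par a b na nb h2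
    have g3 := I.par b c nb nc h3
    have g4 := I.par c d nc nd h4
    have g5 := I.par d y nd hy h5
    omega
  univ := fun a ha => le_step _ _ (I.univ a ha)
  pos := by
    intro a b ha hab
    have hD : 5 ^ (i + 1) = 5 * 5 ^ i := by ring
    have hpos : 0 < 5 ^ i := by positivity
    set D := 5 ^ i with hDdef
    have hbm := b.isLt
    have ha0 : a.val ≠ 0 := fun h => ha (Fin.ext h)
    have l1 : a.val + D < m + 1 := by omega
    have l2 : a.val + 2 * D < m + 1 := by omega
    have l3 : a.val + 3 * D < m + 1 := by omega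
    have l4 : a.val + 4 * D < m + 1 := by omega
    have key : ∀ u w : Fin (m + 1), u.val ≠ 0 → w.val = u.val + D → G.Adj u w := fun u w hu hw =>
      I.pos u w (fun h => hu (by rw [h]; rfl)) hw
    refine rim_close (o := 0) (fun z hz => I.univ z hz) (by simp; omega)
      ⟨⟨a.val + D, l1⟩, ⟨a.val + 2 * D, l2⟩, ⟨a.val + 3 * D, l3⟩, ⟨a.val + 4 * D, l4⟩, ?_,
        key _ _ ha0 rfl, key _ _ (by simp; omega) (by simp; omega),
        key _ _ (by simp; omega) (by simp; omega), key _ _ (by simp; omega) (by simp; omega),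
        key _ _ (by simp; omega) (by simp; omega), ?_⟩
    · simp only [List.nodup_cons, List.mem_cons, List.not_mem_nil, or_false, not_or, Fin.ext_iff,
        List.nodup_nil, and_true, not_false_eq_true]
      omega
    · intro z hz
      simp only [List.mem_cons, List.not_mem_nil, or_false] at hz
      intro h0
      have h0' : z.val = 0 := by rw [h0]; rfl
      rcases hz with rfl | rfl | rfl | rfl | rfl | rfl <;>
        first | omega | (simp at h0'; omega)

theorem invA (m : ℕ) (hm : 7 ≤ m) (i : ℕ) : InvA m i (proc PW (conePath m) i) := by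
  induction i with
  | zero => exact invA_zero m
  | succ i ih => exact invA_succ hm ih

/-- `M(n) > i` for the pendant wheel if `n ≥ 5^(i+1) + 2`. -/
theorem lower_pendant (n i : ℕ) (hn : 8 ≤ n) (h : 5 ^ (i + 1) + 2 ≤ n) : i < maxTime PW n := by
  obtain ⟨m, rfl⟩ : ∃ m, n = m + 1 := ⟨n - 1, by omega⟩
  refine lt_of_lt_of_le ?_ (runTime_le_maxTime PW (conePath m))
  apply lt_runTime
  intro heq
  have hD : 5 ^ (i + 1) = 5 * 5 ^ i := by ring
  have hpos : 0 < 5 ^ i := by positivity
  have hm : 7 ≤ m := by omega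
  let a : Fin (m + 1) := ⟨1, by omega⟩
  let b : Fin (m + 1) := ⟨1 + 5 ^ (i + 1), by omega⟩
  have ha : a ≠ 0 := fun h => by have := congrArg Fin.val h; simp [a] at this
  have hb : b ≠ 0 := fun h => by have := congrArg Fin.val h; simp [b] at this
  have h1 := (invA m hm (i + 1)).pos a b ha rfl
  rw [← heq] at h1
  have h2 := (invA m hm i).par a b ha hb h1
  have h3 : b.val = 1 + 5 ^ (i + 1) := rfl
  have h4 : a.val = 1 := rfl
  omega

/-! ### the wheel -/

/-- The strip with a hub that sees its beginning. -/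
def strip (m : ℕ) : SimpleGraph (Fin (m + 1)) where
  Adj x y := x ≠ y ∧ ((x = 0 ∧ y.val ≤ 6) ∨ (y = 0 ∧ x.val ≤ 6) ∨ (x ≠ 0 ∧ y ≠ 0 ∧
    (x.val + 1 = y.val ∨ y.val + 1 = x.val ∨ x.val + 3 = y.val ∨ y.val + 3 = x.val)))
  symm := ⟨by rintro x y ⟨h, h'⟩; exact ⟨h.symm, by tauto⟩⟩
  loopless := ⟨fun _ h => h.1 rfl⟩

structure InvB (m i : ℕ) (G : SimpleGraph (Fin (m + 1))) : Prop where
  par : ∀ a b : Fin (m + 1), a ≠ 0 → b ≠ 0 → G.Adj a b → a.val % 2 ≠ b.val % 2 ∧
    ((a.val + 1 = b.val ∨ b.val + 1 = a.val ∨ a.val + 3 = b.val ∨ b.val + 3 = a.val) ∨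
      (a.val ≤ 6 + i ∧ b.val ≤ 6 + i))
  hub : ∀ a : Fin (m + 1), G.Adj 0 a → a.val ≤ 6 + i
  base : ∀ a b : Fin (m + 1), a ≠ 0 → b ≠ 0 → (a.val + 1 = b.val ∨ a.val + 3 = b.val) → G.Adj a b
  pos : ∀ a : Fin (m + 1), a ≠ 0 → a.val ≤ 6 + i → G.Adj 0 a

theorem invB_zero (m : ℕ) : InvB m 0 (strip m) where
  par := by
    rintro a b ha hb ⟨-, ⟨h, -⟩ | ⟨h, -⟩ | ⟨-, -, h⟩⟩
    · exact absurd h ha
    · exact absurd h hb
    · omega
  hub := by
    rintro a ⟨hne, ⟨-, h⟩ | ⟨h, -⟩ | ⟨h, -, -⟩⟩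
    · omega
    · exact absurd h.symm hne
    · exact absurd rfl h
  base := by
    intro a b ha hb h
    refine ⟨?_, Or.inr (Or.inr ⟨ha, hb, by tauto⟩)⟩
    rintro rfl; omega
  pos := fun a ha h => ⟨ha.symm, Or.inl ⟨rfl, by omega⟩⟩

theorem invB_color {m i : ℕ} {G : SimpleGraph (Fin (m + 1))} (I : InvB m i G) (a b : Fin (m + 1))
    (ha : a ≠ 0) (hb : b ≠ 0) (hab : G.Adj a b) :
    (fun z : Fin (m + 1) => decide (z.val % 2 = 0)) a ≠
      (fun z : Fin (m + 1) => decide (z.val % 2 = 0)) b := by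
  have := (I.par a b ha hb hab).1
  intro hc
  have h1 := Nat.mod_two_eq_zero_or_one a.val
  have h2 := Nat.mod_two_eq_zero_or_one b.val
  rcases h1 with h1 | h1 <;> rcases h2 with h2 | h2 <;> simp [h1, h2] at hc this

theorem invB_spoke {m i : ℕ} {G : SimpleGraph (Fin (m + 1))} (I : InvB m i G) (y : Fin (m + 1))
    (hy : y ≠ 0) (h : NewCopy wheel G 0 y) : y.val ≤ 6 + (i + 1) := by
  rw [newCopy_wheel] at h
  obtain ⟨h, r, w, hw⟩ := h
  have hh : h = 0 := hub_eq (fun z => decide (z.val % 2 = 0)) 0 (invB_color I) hy.symm w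
  subst hh
  obtain ⟨z, z', hzz, hz, hz', h1, h2, h3, h4⟩ := spoke_two w hw
  have g1 := I.hub z h1
  have g2 := I.hub z' h2
  have g3 := (I.par y z hy hz h3).2
  have g4 := (I.par y z' hy hz' h4).2
  have : z.val ≠ z'.val := fun h => hzz (Fin.ext h)
  omega

theorem invB_succ {m i : ℕ} {G : SimpleGraph (Fin (m + 1))} (I : InvB m i G) :
    InvB m (i + 1) (step wheel G) where
  par := by
    intro x y hx hy h
    rw [step_adj] at h
    obtain ⟨hxy, h⟩ := h
    rcases h with h | h
    · have := I.par x y hx hy h; omega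
    rw [newCopy_wheel] at h
    obtain ⟨h, r, w, hw⟩ := h
    have hh : h = 0 := hub_eq (fun z => decide (z.val % 2 = 0)) 0 (invB_color I) hxy w
    subst hh
    obtain ⟨a, b, c, d, hn, h1, h2, h3, h4, h5, ho⟩ := rim_path hx hy w hw
    have ne : ∀ z ∈ [x, a, b, c, d, y], z ≠ 0 := fun z hz => (ho z hz).ne'
    have na := ne a (by simp)
    have nb := ne b (by simp)
    have nc := ne c (by simp)
    have nd := ne d (by simp)
    have g1 := (I.par x a hx na h1).1
    have g2 := (I.par a b na nb h2).1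
    have g3 := (I.par b c nb nc h3).1
    have g4 := (I.par c d nc nd h4).1
    have g5 := (I.par d y nd hy h5).1
    have k1 := I.hub x (ho x (by simp))
    have k2 := I.hub y (ho y (by simp))
    omega
  hub := by
    intro y h
    rw [step_adj] at h
    obtain ⟨hxy, h⟩ := h
    rcases h with h | h
    · have := I.hub y h; omega
    · exact invB_spoke I y hxy.symm h
  base := fun a b ha hb h => le_step _ _ (I.base a b ha hb h)
  pos := by
    intro y hy hle
    by_cases hle' : y.val ≤ 6 + i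
    · exact le_step _ _ (I.pos y hy hle')
    have hyv : y.val = 7 + i := by omega
    rw [step_adj]
    refine ⟨hy.symm, Or.inr ?_⟩
    rw [newCopy_wheel]
    have hm := y.isLt
    let v (k : ℕ) (hk : k ≤ 6 + i) : Fin (m + 1) := ⟨k, by omega⟩
    have hle0 : G ≤ G ⊔ edge 0 y := le_sup_left
    have bs : ∀ a b : Fin (m + 1), a.val ≠ 0 → b.val ≠ 0 →
        (a.val + 1 = b.val ∨ a.val + 3 = b.val) → (G ⊔ edge 0 y).Adj a b := fun a b ha hb h =>
      hle0 (I.base a b (fun h0 => ha (by rw [h0]; rfl)) (fun h0 => hb (by rw [h0]; rfl)) h)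
    have sp : ∀ a : Fin (m + 1), a.val ≠ 0 → a.val ≤ 6 + i → (G ⊔ edge 0 y).Adj 0 a :=
      fun a ha h => hle0 (I.pos a (fun h0 => ha (by rw [h0]; rfl)) h)
    refine ⟨0, ![y, v (6 + i) (by omega), v (5 + i) (by omega), v (2 + i) (by omega),
      v (1 + i) (by omega), v (4 + i) (by omega)], wh_path ?_ ?_ ?_ ?_ ?_ ?_ ?_ ?_, ?_⟩
    · simp only [List.nodup_cons, List.mem_cons, List.not_mem_nil, or_false, not_or, Fin.ext_iff,
        List.nodup_nil, and_true, not_false_eq_true, v]
      omega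
    · exact (bs _ _ (by simp [v]) (by omega) (by simp only [v]; omega)).symm
    · exact (bs _ _ (by simp [v]) (by simp [v]) (by simp only [v]; omega)).symm
    · exact (bs _ _ (by simp [v]) (by simp [v]) (by simp only [v]; omega)).symm
    · exact (bs _ _ (by simp [v]) (by simp [v]) (by simp only [v]; omega)).symm
    · exact bs _ _ (by simp [v]) (by simp [v]) (by simp only [v]; omega)
    · exact bs _ _ (by simp [v]) (by omega) (by simp only [v]; omega)
    · intro z hz
      simp only [List.mem_cons, List.not_mem_nil, or_false] at hz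
      rcases hz with rfl | rfl | rfl | rfl | rfl | rfl
      · rw [sup_edge_adj]; exact Or.inr ⟨hy.symm, Or.inl ⟨rfl, rfl⟩⟩
      · exact sp _ (by simp [v]) (by simp [v])
      · exact sp _ (by simp [v]) (by simp only [v]; omega)
      · exact sp _ (by simp [v]) (by simp only [v]; omega)
      · exact sp _ (by simp [v]) (by simp only [v]; omega)
      · exact sp _ (by simp [v]) (by simp only [v]; omega)
    · intro W
      have := I.hub y (W.spoke 0)
      omega

theorem invB (m i : ℕ) : InvB m i (proc wheel (strip m) i) := by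
  induction i with
  | zero => exact invB_zero m
  | succ i ih => exact invB_succ ih

/-- `M_{W_6}(n) ≥ n - 7`. -/
theorem lower_wheel (n : ℕ) : n ≤ maxTime wheel n + 7 := by
  by_cases hn : n ≤ 7
  · omega
  obtain ⟨m, rfl⟩ : ∃ m, n = m + 1 := ⟨n - 1, by omega⟩
  have hm : 7 ≤ m := by omega
  obtain ⟨i, rfl⟩ : ∃ i, m = 7 + i := ⟨m - 7, by omega⟩
  have key : i < maxTime wheel (7 + i + 1) := by
    refine lt_of_lt_of_le ?_ (runTime_le_maxTime wheel (strip (7 + i)))
    apply lt_runTime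
    intro heq
    let a : Fin (7 + i + 1) := ⟨7 + i, by omega⟩
    have ha : a ≠ 0 := fun h => by have := congrArg Fin.val h; simp [a] at this
    have h1 := (invB (7 + i) (i + 1)).pos a ha (by simp only [a]; omega)
    rw [← heq] at h1
    have h2 := (invB (7 + i) i).hub a h1
    simp only [a] at h2
    omega
  omega

end Q274.GB
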