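import Pool.Agent.Q274.GB.Struct

/-!
# The `C_6`-process: after `log_5 n + O(1)` rounds it has stopped or a fan has appeared
-/

set_option autoImplicit false

namespace Q274.GB

open SimpleGraph Function

variable {V : Type}

/-- One round of the `C_6`-process. -/
def c6 (G : SimpleGraph V) : SimpleGraph V where
  Adj x y := G.Adj x y ∨ P5 G x y
  symm := ⟨by
    rintro x y (h | h)
    · exact Or.inl h.symm
    · exact Or.inr h.symm⟩
  loopless := ⟨by
    rintro x (h | h)
    · exact h.ne rfl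
    · exact h.ne rfl⟩

theorem le_c6 (G : SimpleGraph V) : G ≤ c6 G := fun _ _ h => Or.inl h

/-- The `C_6`-process. -/
def sq (K : SimpleGraph V) : ℕ → SimpleGraph V
  | 0 => K
  | j + 1 => c6 (sq K j)

theorem sq_mono (K : SimpleGraph V) : Monotone (sq K) :=
  monotone_nat_of_le_succ fun _ => le_c6 _

/-- A hub `h` with a path of five vertices in its neighbourhood. -/
def Fan (G : SimpleGraph V) (h : V) : Prop :=
  ∃ a b c d e, [h, a, b, c, d, e].Nodup ∧ G.Adj a b ∧ G.Adj b c ∧ G.Adj c d ∧ G.Adj d e ∧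
    G.Adj h a ∧ G.Adj h b ∧ G.Adj h c ∧ G.Adj h d ∧ G.Adj h e

def HasFan (G : SimpleGraph V) : Prop := ∃ h, Fan G h

theorem HasFan.mono {G G' : SimpleGraph V} (hle : G ≤ G') (h : HasFan G) : HasFan G' := by
  obtain ⟨h, a, b, c, d, e, hn, h1, h2, h3, h4, h5, h6, h7, h8, h9⟩ := h
  exact ⟨h, a, b, c, d, e, hn, hle h1, hle h2, hle h3, hle h4, hle h5, hle h6, hle h7, hle h8,
    hle h9⟩

/-! ### reachability and distances -/

theorem P5.reach {G K : SimpleGraph V} (hG : ∀ a b, G.Adj a b → K.Reachable a b) {x y : V}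
    (h : P5 G x y) : K.Reachable x y := by
  obtain ⟨a, b, c, d, -, h1, h2, h3, h4, h5⟩ := h
  exact (hG _ _ h1).trans ((hG _ _ h2).trans ((hG _ _ h3).trans ((hG _ _ h4).trans (hG _ _ h5))))

theorem sq_reach (K : SimpleGraph V) (j : ℕ) : ∀ a b, (sq K j).Adj a b → K.Reachable a b := by
  induction j with
  | zero => exact fun a b h => h.reachable
  | succ j ih =>
    rintro a b (h | h)
    · exact ih a b h
    · exact h.reach ih

theorem compress {G : SimpleGraph V} (n : ℕ) : ∀ (a b : V) (p : G.Walk a b), p.IsPath →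
    p.length = n → ∃ q : (c6 G).Walk a b, q.length ≤ n / 5 + n % 5 := by
  induction n using Nat.strong_induction_on with
  | _ n ih =>
    intro a b p hp hl
    by_cases hn : n < 5
    · refine ⟨p.mapLe (le_c6 G), ?_⟩
      rw [Walk.length_mapLe, hl]; omega
    · match p, hp, hl with
      | .nil, hp, hl => simp at hl; omega
      | .cons _ .nil, hp, hl => simp at hl; omega
      | .cons _ (.cons _ .nil), hp, hl => simp at hl; omega
      | .cons _ (.cons _ (.cons _ .nil)), hp, hl => simp at hl; omega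
      | .cons _ (.cons _ (.cons _ (.cons _ .nil))), hp, hl => simp at hl; omega
      | .cons (v := a1) h1 (.cons (v := a2) h2 (.cons (v := a3) h3 (.cons (v := a4) h4
          (.cons (v := a5) h5 q)))), hp, hl =>
        simp only [Walk.length_cons] at hl
        simp only [Walk.cons_isPath_iff, Walk.support_cons, List.mem_cons, not_or] at hp
        obtain ⟨⟨⟨⟨⟨hq, p5⟩, p4⟩, p3⟩, p2⟩, p1⟩ := hp
        obtain ⟨q', hq'⟩ := ih q.length (by omega) a5 b q hq rfl
        have hne : ∀ z, z ∉ q.support → z ≠ a5 := by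
          rintro z hz rfl; exact hz q.start_mem_support
        have hP : P5 G a a5 := by
          refine ⟨a1, a2, a3, a4, ?_, h1, h2, h3, h4, h5⟩
          simp only [List.nodup_cons, List.mem_cons, List.not_mem_nil, or_false, not_or,
            List.nodup_nil, and_true, not_false_eq_true]
          have := hne a
          have := hne a1
          have := hne a2
          have := hne a3
          have := hne a4
          tauto
        have hA : (c6 G).Adj a a5 := Or.inr hP
        refine ⟨Walk.cons hA q', ?_⟩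
        rw [Walk.length_cons]
        omega

/-- Joined by a walk of length at most `L`. -/
def Near (G : SimpleGraph V) (L : ℕ) (a b : V) : Prop := ∃ q : G.Walk a b, q.length ≤ L

theorem Near.step [Finite V] {G : SimpleGraph V} {L : ℕ} {a b : V} (h : Near G L a b) :
    ∃ D ≤ L, Near (c6 G) (D / 5 + D % 5) a b := by
  classical
  obtain ⟨q, hq⟩ := h
  exact ⟨q.bypass.length, (q.length_bypass_le_length).trans hq, compress _ a b q.bypass q.bypass_isPath rfl⟩

theorem Near.mono {G G' : SimpleGraph V} {L L' : ℕ} {a b : V} (hG : G ≤ G') (hL : L ≤ L')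
    (h : Near G L a b) : Near G' L' a b := by
  obtain ⟨q, hq⟩ := h
  exact ⟨q.mapLe hG, by rw [Walk.length_mapLe]; omega⟩

theorem near_iter [Finite V] (K : SimpleGraph V) (n : ℕ) (hn : Nat.card V ≤ n) {a b : V}
    (h : K.Reachable a b) (j : ℕ) : Near (sq K j) (n / 5 ^ j + 5) a b := by
  classical
  have := Fintype.ofFinite V
  induction j with
  | zero =>
    obtain ⟨p, hp⟩ := h.exists_isPath
    have h1 := hp.length_lt
    rw [← Nat.card_eq_fintype_card] at h1
    have hpl : p.length ≤ n / 5 ^ 0 + 5 := by simp; omega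
    exact ⟨p, hpl⟩
  | succ j ih =>
    obtain ⟨D, hD, h'⟩ := ih.step
    refine h'.mono le_rfl ?_
    have : n / 5 ^ (j + 1) = n / 5 ^ j / 5 := by rw [pow_succ, Nat.div_div_eq_div_mul]
    omega

theorem near_four [Finite V] (K : SimpleGraph V) (n : ℕ) (hn : Nat.card V ≤ n) {a b : V}
    (h : K.Reachable a b) : Near (sq K (Nat.log 5 n + 2)) 4 a b := by
  have h1 := near_iter K n hn h (Nat.log 5 n + 1)
  have h2 : n / 5 ^ (Nat.log 5 n + 1) = 0 :=
    Nat.div_eq_of_lt (Nat.lt_pow_succ_log_self (by norm_num) n)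
  rw [h2] at h1
  obtain ⟨D, hD, h'⟩ := h1.step
  exact h'.mono le_rfl (by omega)

/-! ### activity in a component -/

/-- Something happens in the component of `x0` in round `j + 1`. -/
def Act (K : SimpleGraph V) (x0 : V) (j : ℕ) : Prop :=
  ∃ x y, K.Reachable x0 x ∧ ¬ (sq K j).Adj x y ∧ P5 (sq K j) x y

theorem act_back {K : SimpleGraph V} {x0 : V} {j : ℕ} (h : Act K x0 (j + 1)) : Act K x0 j := by
  by_contra hno
  have hsame : ∀ x y, K.Reachable x0 x → (sq K (j + 1)).Adj x y → (sq K j).Adj x y := by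
    rintro x y hx (h | h)
    · exact h
    · by_contra hn
      exact hno ⟨x, y, hx, hn, h⟩
  obtain ⟨x, y, hx, hn, a, b, c, d, hnd, h1, h2, h3, h4, h5⟩ := h
  have ra : K.Reachable x0 a := hx.trans (sq_reach K _ _ _ h1)
  have rb : K.Reachable x0 b := ra.trans (sq_reach K _ _ _ h2)
  have rc : K.Reachable x0 c := rb.trans (sq_reach K _ _ _ h3)
  have rd : K.Reachable x0 d := rc.trans (sq_reach K _ _ _ h4)
  exact hn (Or.inr ⟨a, b, c, d, hnd, hsame _ _ hx h1, hsame _ _ ra h2, hsame _ _ rb h3,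
    hsame _ _ rc h4, hsame _ _ rd h5⟩)

theorem act_le {K : SimpleGraph V} {x0 : V} {T : ℕ} (h : Act K x0 T) : ∀ j ≤ T, Act K x0 j := by
  intro j hj
  induction T with
  | zero => obtain rfl : j = 0 := by omega
            exact h
  | succ T ih =>
    rcases Nat.lt_or_ge j (T + 1) with h' | h'
    · exact ih (act_back h) (by omega)
    · obtain rfl : j = T + 1 := by omega
      exact h

/-! ### blocks -/

/-- A complete bipartite graph `K_{3,3}`. -/
structure Blk (G : SimpleGraph V) (X Y : Fin 3 → V) : Prop where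
  injX : Injective X
  injY : Injective Y
  dis : ∀ i j, X i ≠ Y j
  adj : ∀ i j, G.Adj (X i) (Y j)

theorem Blk.swap {G : SimpleGraph V} {X Y : Fin 3 → V} (B : Blk G X Y) : Blk G Y X :=
  ⟨B.injY, B.injX, fun i j => (B.dis j i).symm, fun i j => (B.adj j i).symm⟩

theorem Blk.mono {G G' : SimpleGraph V} (hle : G ≤ G') {X Y : Fin 3 → V} (B : Blk G X Y) :
    Blk G' X Y := ⟨B.injX, B.injY, B.dis, fun i j => hle (B.adj i j)⟩

/-- `w` is adjacent to all the vertices of `Z` (except itself). -/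
def Ty (G : SimpleGraph V) (Z : Fin 3 → V) (w : V) : Prop := ∀ j, w ≠ Z j → G.Adj w (Z j)

theorem Ty.mono {G G' : SimpleGraph V} (hle : G ≤ G') {Z : Fin 3 → V} {w : V} (h : Ty G Z w) :
    Ty G' Z w := fun j hj => hle (h j hj)

theorem Blk.tyX {G : SimpleGraph V} {X Y : Fin 3 → V} (B : Blk G X Y) (i : Fin 3) :
    Ty G Y (X i) := fun j _ => B.adj i j

theorem Blk.tyY {G : SimpleGraph V} {X Y : Fin 3 → V} (B : Blk G X Y) (i : Fin 3) :
    Ty G X (Y i) := fun j _ => (B.adj j i).symm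

theorem third : ∀ i j : Fin 3, ∃ k, k ≠ i ∧ k ≠ j := by decide
theorem other : ∀ i : Fin 3, ∃ j, j ≠ i := by decide
theorem others : ∀ i : Fin 3, ∃ j k, j ≠ i ∧ k ≠ i ∧ j ≠ k := by decide

theorem pick_two {Z : Fin 3 → V} (hZ : Injective Z) (w : V) :
    ∃ i j, i ≠ j ∧ Z i ≠ w ∧ Z j ≠ w := by
  by_cases h : ∃ k, Z k = w
  · obtain ⟨k, rfl⟩ := h
    obtain ⟨i, j, h1, h2, h3⟩ := others k
    exact ⟨i, j, h3, hZ.ne h1, hZ.ne h2⟩
  · push Not at h
    exact ⟨0, 1, by decide, h 0, h 1⟩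

theorem pick_one {Z : Fin 3 → V} (hZ : Injective Z) (a b : V) : ∃ e, Z e ≠ a ∧ Z e ≠ b := by
  obtain ⟨i, j, h1, h2, h3⟩ := pick_two hZ a
  by_cases h : Z i = b
  · refine ⟨j, h3, ?_⟩
    rw [← h]; exact hZ.ne h1.symm
  · exact ⟨i, h2, h⟩

theorem rule_one {G : SimpleGraph V} {X Y : Fin 3 → V} (B : Blk G X Y) {w : V} {k : Fin 3}
    (hX : ∀ i, w ≠ X i) (hY : ∀ i, w ≠ Y i) (h : G.Adj w (X k)) : Ty (c6 G) X w := by
  intro i _
  by_cases hik : i = k
  · subst hik; exact Or.inl h
  obtain ⟨m, hm1, hm2⟩ := third i k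
  refine Or.inr ⟨X k, Y 0, X m, Y 1, ?_, h, B.adj _ _, (B.adj _ _).symm, B.adj _ _,
    (B.adj _ _).symm⟩
  have e1 := B.injX.ne (Ne.symm hik)
  have e2 := B.injX.ne hm1
  have e3 := B.injX.ne hm2
  have e4 : Y 0 ≠ Y 1 := B.injY.ne (by decide)
  have d1 := B.dis k 0
  have d2 := B.dis k 1
  have d3 := B.dis m 0
  have d4 := B.dis m 1
  have d5 := B.dis i 0
  have d6 := B.dis i 1
  simp only [List.nodup_cons, List.mem_cons, List.not_mem_nil, or_false, not_or,
    List.nodup_nil, and_true, not_false_eq_true]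
  exact ⟨⟨hX k, hY 0, hX m, hY 1, hX i⟩, ⟨d1, e3.symm, d2, e1⟩, ⟨d3.symm, e4, d5.symm⟩,
    ⟨d4, e2⟩, d6.symm⟩

theorem rule_two {G : SimpleGraph V} {X Y : Fin 3 → V} (B : Blk G X Y) {w w1 : V} {k : Fin 3}
    (hX : ∀ i, w ≠ X i) (hY : ∀ i, w ≠ Y i) (hX1 : ∀ i, w1 ≠ X i) (hY1 : ∀ i, w1 ≠ Y i)
    (h : G.Adj w w1) (h' : G.Adj w1 (X k)) : Ty (c6 G) Y w := by
  intro j _
  obtain ⟨j', hj'⟩ := other j
  obtain ⟨i, hi⟩ := other k
  refine Or.inr ⟨w1, X k, Y j', X i, ?_, h, h', B.adj _ _, (B.adj _ _).symm, B.adj _ _⟩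
  simp only [List.nodup_cons, List.mem_cons, List.not_mem_nil, or_false, not_or,
    List.nodup_nil, and_true, not_false_eq_true]
  exact ⟨⟨h.ne, hX k, hY j', hX i, hY j⟩, ⟨hX1 k, hY1 j', hX1 i, hY1 j⟩,
    ⟨B.dis k j', (B.injX.ne hi).symm, B.dis k j⟩, ⟨(B.dis i j').symm, B.injY.ne hj'⟩, B.dis i j⟩

/-- `w` is attached to the block. -/
def Att (G : SimpleGraph V) (X Y : Fin 3 → V) (w : V) : Prop := Ty G Y w ∨ Ty G X w

theorem Att.mono {G G' : SimpleGraph V} (hle : G ≤ G') {X Y : Fin 3 → V} {w : V}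
    (h : Att G X Y w) : Att G' X Y w := h.imp (fun h => h.mono hle) (fun h => h.mono hle)

theorem Att.swap {G : SimpleGraph V} {X Y : Fin 3 → V} {w : V} (h : Att G X Y w) : Att G Y X w :=
  h.symm

theorem spread {G : SimpleGraph V} {X Y : Fin 3 → V} (B : Blk G X Y) {w w1 : V}
    (h : G.Adj w w1) (h1 : Att G X Y w1) : Att (c6 G) X Y w := by
  by_cases hwX : ∃ i, w = X i
  · obtain ⟨i, rfl⟩ := hwX; exact Or.inl ((B.tyX i).mono (le_c6 G))
  by_cases hwY : ∃ i, w = Y i
  · obtain ⟨i, rfl⟩ := hwY; exact Or.inr ((B.tyY i).mono (le_c6 G))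
  push Not at hwX hwY
  by_cases h1X : ∃ i, w1 = X i
  · obtain ⟨i, rfl⟩ := h1X; exact Or.inr (rule_one B hwX hwY h)
  by_cases h1Y : ∃ i, w1 = Y i
  · obtain ⟨i, rfl⟩ := h1Y; exact Or.inl (rule_one B.swap hwY hwX h)
  push Not at h1X h1Y
  rcases h1 with h1 | h1
  · exact Or.inr (rule_two B.swap hwY hwX h1Y h1X h (h1 0 (h1Y 0)))
  · exact Or.inl (rule_two B hwX hwY h1X h1Y h (h1 0 (h1X 0)))

theorem spread_walk {K : SimpleGraph V} {X Y : Fin 3 → V} {t : ℕ} (B : Blk (sq K t) X Y) (k : ℕ) :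
    ∀ w, Near (sq K t) k w (X 0) → Att (sq K (t + k)) X Y w := by
  induction k with
  | zero =>
    rintro w ⟨q, hq⟩
    have : w = X 0 := Walk.eq_of_length_eq_zero (p := q) (by omega)
    subst this
    exact Or.inl (B.tyX 0)
  | succ k ih =>
    rintro w ⟨q, hq⟩
    cases q with
    | nil => exact Or.inl ((B.tyX 0).mono (sq_mono K (by omega)))
    | cons h q =>
      rw [Walk.length_cons] at hq
      have h1 := ih _ ⟨q, by omega⟩
      have hle : sq K t ≤ sq K (t + k) := sq_mono K (by omega)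
      exact spread (B.mono hle) (hle h) h1

theorem both_fan {G : SimpleGraph V} {X Y : Fin 3 → V} (B : Blk G X Y) {w : V}
    (hX : Ty G X w) (hY : Ty G Y w) : HasFan G := by
  have main : ∀ {X Y : Fin 3 → V}, Blk G X Y → ∀ k, Ty G X (X k) → HasFan G := by
    intro X Y B k hX
    obtain ⟨i, j, hi, hj, hij⟩ := others k
    refine ⟨X k, Y 0, X i, Y 1, X j, Y 2, ?_, (B.adj _ _).symm, B.adj _ _, (B.adj _ _).symm,
      B.adj _ _, B.adj _ _, hX i (B.injX.ne hi.symm), B.adj _ _, hX j (B.injX.ne hj.symm),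
      B.adj _ _⟩
    simp only [List.nodup_cons, List.mem_cons, List.not_mem_nil, or_false, not_or,
      List.nodup_nil, and_true, not_false_eq_true]
    exact ⟨⟨B.dis _ _, (B.injX.ne hi).symm, B.dis _ _, (B.injX.ne hj).symm, B.dis _ _⟩,
      ⟨(B.dis _ _).symm, B.injY.ne (by decide), (B.dis _ _).symm, B.injY.ne (by decide)⟩,
      ⟨B.dis _ _, B.injX.ne hij, B.dis _ _⟩, ⟨(B.dis _ _).symm, B.injY.ne (by decide)⟩,
      B.dis _ _⟩
  by_cases hwX : ∃ i, w = X i
  · obtain ⟨i, rfl⟩ := hwX; exact main B i hX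
  by_cases hwY : ∃ i, w = Y i
  · obtain ⟨i, rfl⟩ := hwY; exact main B.swap i hY
  push Not at hwX hwY
  refine ⟨w, X 0, Y 0, X 1, Y 1, X 2, ?_, B.adj _ _, (B.adj _ _).symm, B.adj _ _,
    (B.adj _ _).symm, hX 0 (hwX 0), hY 0 (hwY 0), hX 1 (hwX 1), hY 1 (hwY 1), hX 2 (hwX 2)⟩
  simp only [List.nodup_cons, List.mem_cons, List.not_mem_nil, or_false, not_or,
    List.nodup_nil, and_true, not_false_eq_true]
  exact ⟨⟨hwX _, hwY _, hwX _, hwY _, hwX _⟩,
    ⟨B.dis _ _, B.injX.ne (by decide), B.dis _ _, B.injX.ne (by decide)⟩,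
    ⟨(B.dis _ _).symm, B.injY.ne (by decide), (B.dis _ _).symm⟩,
    ⟨B.dis _ _, B.injX.ne (by decide)⟩, (B.dis _ _).symm⟩

theorem opposite {G : SimpleGraph V} {X Y : Fin 3 → V} (B : Blk G X Y) {w w' : V}
    (hne : w ≠ w') (h : Ty G Y w) (h' : Ty G X w') : (c6 G).Adj w w' := by
  by_cases hwY : ∃ j, w' = Y j
  · obtain ⟨j, rfl⟩ := hwY; exact Or.inl (h j hne)
  by_cases hwX : ∃ i, w = X i
  · obtain ⟨i, rfl⟩ := hwX; exact Or.inl (h' i hne.symm).symm
  push Not at hwX hwY
  obtain ⟨o, o', ho, ho1, ho2⟩ := pick_two B.injY w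
  obtain ⟨e, e', he, he1, he2⟩ := pick_two B.injX w'
  refine Or.inr ⟨Y o, X e, Y o', X e', ?_, h o ho1.symm, (B.adj _ _).symm, B.adj _ _,
    (B.adj _ _).symm, (h' e' he2.symm).symm⟩
  simp only [List.nodup_cons, List.mem_cons, List.not_mem_nil, or_false, not_or,
    List.nodup_nil, and_true, not_false_eq_true]
  exact ⟨⟨ho1.symm, hwX _, ho2.symm, hwX _, hne⟩,
    ⟨(B.dis _ _).symm, B.injY.ne ho, (B.dis _ _).symm, (hwY _).symm⟩,
    ⟨B.dis _ _, B.injX.ne he, he1⟩, ⟨(B.dis _ _).symm, (hwY _).symm⟩, he2⟩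

theorem same_type {G : SimpleGraph V} {X Y : Fin 3 → V} (B : Blk G X Y) {a b : V}
    (hab : G.Adj a b) (ha : Ty G Y a) (hb : Ty G Y b) : HasFan (c6 G) := by
  by_cases haY : ∃ j, a = Y j
  · obtain ⟨j, rfl⟩ := haY; exact (both_fan B (B.tyY j) ha).mono (le_c6 G)
  by_cases hbY : ∃ j, b = Y j
  · obtain ⟨j, rfl⟩ := hbY; exact (both_fan B (B.tyY j) hb).mono (le_c6 G)
  push Not at haY hbY
  obtain ⟨e, he1, he2⟩ := pick_one B.injX a b
  have key : Ty (c6 G) Y (Y 0) := by
    intro j hj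
    obtain ⟨k, hk1, hk2⟩ := third 0 j
    have hj' : (0 : Fin 3) ≠ j := fun h => hj (by rw [h])
    refine Or.inr ⟨X e, Y k, a, b, ?_, (B.adj _ _).symm, B.adj _ _, (ha k (haY k)).symm, hab,
      hb j (hbY j)⟩
    simp only [List.nodup_cons, List.mem_cons, List.not_mem_nil, or_false, not_or,
      List.nodup_nil, and_true, not_false_eq_true]
    exact ⟨⟨(B.dis _ _).symm, B.injY.ne hk1.symm, (haY _).symm, (hbY _).symm, B.injY.ne hj'⟩,
      ⟨B.dis _ _, he1, he2, B.dis _ _⟩, ⟨(haY _).symm, (hbY _).symm, B.injY.ne hk2⟩,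
      ⟨hab.ne, haY _⟩, hbY _⟩
  exact both_fan (B.mono (le_c6 G)) ((B.tyY 0).mono (le_c6 G)) key

/-- Two adjacent vertices on a path with equal types. -/
theorem path_same {G : SimpleGraph V} {X Y : Fin 3 → V} (B : Blk G X Y) {x a b c d y : V}
    (h1 : G.Adj x a) (h2 : G.Adj a b) (h3 : G.Adj b c) (h4 : G.Adj c d) (h5 : G.Adj d y)
    (hx : Ty G Y x) (ha : Att G X Y a) (hb : Att G X Y b) (hc : Att G X Y c) (hd : Att G X Y d)
    (hy : Ty G Y y) : HasFan (c6 G) := by
  rcases ha with ha | ha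
  · exact same_type B h1 hx ha
  rcases hb with hb | hb
  swap
  · exact same_type B.swap h2 ha hb
  rcases hc with hc | hc
  · exact same_type B h3 hb hc
  rcases hd with hd | hd
  swap
  · exact same_type B.swap h4 hc hd
  · exact same_type B h5 hd hy

/-- A vertex attached to a 6-cycle produces `K_{3,3}` two rounds later. -/
theorem make_block {G : SimpleGraph V} {r : Fin 6 → V} (hr : Injective r)
    (hadj : ∀ i, G.Adj (r i) (r (i + 1))) {z : V} (hz : ∀ i, z ≠ r i) (h0 : G.Adj z (r 0)) :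
    Blk (c6 (c6 G)) ![r 0, r 2, r 4] ![r 1, r 3, r 5] := by
  have a01 := hadj 0
  have a12 := hadj 1
  have a23 := hadj 2
  have a34 := hadj 3
  have a45 := hadj 4
  have a50 := hadj 5
  simp only [Fin.isValue, zero_add, Fin.reduceAdd] at a01 a12 a23 a34 a45 a50
  have ne : ∀ i j, i ≠ j → r i ≠ r j := fun i j h => hr.ne h
  have z4 : (c6 G).Adj z (r 4) := by
    refine Or.inr ⟨r 0, r 1, r 2, r 3, ?_, h0, a01, a12, a23, a34⟩
    simp only [List.nodup_cons, List.mem_cons, List.not_mem_nil, or_false, not_or,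
      List.nodup_nil, and_true, not_false_eq_true]
    exact ⟨⟨hz _, hz _, hz _, hz _, hz _⟩,
      ⟨ne _ _ (by decide), ne _ _ (by decide), ne _ _ (by decide), ne _ _ (by decide)⟩,
      ⟨ne _ _ (by decide), ne _ _ (by decide), ne _ _ (by decide)⟩,
      ⟨ne _ _ (by decide), ne _ _ (by decide)⟩, ne _ _ (by decide)⟩
  have z2 : (c6 G).Adj z (r 2) := by
    refine Or.inr ⟨r 0, r 5, r 4, r 3, ?_, h0, a50.symm, a45.symm, a34.symm, a23.symm⟩
    simp only [List.nodup_cons, List.mem_cons, List.not_mem_nil, or_false, not_or,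
      List.nodup_nil, and_true, not_false_eq_true]
    exact ⟨⟨hz _, hz _, hz _, hz _, hz _⟩,
      ⟨ne _ _ (by decide), ne _ _ (by decide), ne _ _ (by decide), ne _ _ (by decide)⟩,
      ⟨ne _ _ (by decide), ne _ _ (by decide), ne _ _ (by decide)⟩,
      ⟨ne _ _ (by decide), ne _ _ (by decide)⟩, ne _ _ (by decide)⟩
  have hle := le_c6 G
  have z0 : (c6 G).Adj z (r 0) := hle h0
  have c03 : (c6 (c6 G)).Adj (r 0) (r 3) := by
    refine Or.inr ⟨r 1, r 2, z, r 4, ?_, hle a01, hle a12, z2.symm, z4, hle a34.symm⟩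
    simp only [List.nodup_cons, List.mem_cons, List.not_mem_nil, or_false, not_or,
      List.nodup_nil, and_true, not_false_eq_true]
    exact ⟨⟨ne _ _ (by decide), ne _ _ (by decide), (hz _).symm, ne _ _ (by decide),
      ne _ _ (by decide)⟩, ⟨ne _ _ (by decide), (hz _).symm, ne _ _ (by decide),
      ne _ _ (by decide)⟩, ⟨(hz _).symm, ne _ _ (by decide), ne _ _ (by decide)⟩,
      ⟨hz _, hz _⟩, ne _ _ (by decide)⟩
  have c25 : (c6 (c6 G)).Adj (r 2) (r 5) := by
    refine Or.inr ⟨r 3, r 4, z, r 0, ?_, hle a23, hle a34, z4.symm, z0, hle a50.symm⟩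
    simp only [List.nodup_cons, List.mem_cons, List.not_mem_nil, or_false, not_or,
      List.nodup_nil, and_true, not_false_eq_true]
    exact ⟨⟨ne _ _ (by decide), ne _ _ (by decide), (hz _).symm, ne _ _ (by decide),
      ne _ _ (by decide)⟩, ⟨ne _ _ (by decide), (hz _).symm, ne _ _ (by decide),
      ne _ _ (by decide)⟩, ⟨(hz _).symm, ne _ _ (by decide), ne _ _ (by decide)⟩,
      ⟨hz _, hz _⟩, ne _ _ (by decide)⟩
  have c41 : (c6 (c6 G)).Adj (r 4) (r 1) := by
    refine Or.inr ⟨r 5, r 0, z, r 2, ?_, hle a45, hle a50, z0.symm, z2, hle a12.symm⟩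
    simp only [List.nodup_cons, List.mem_cons, List.not_mem_nil, or_false, not_or,
      List.nodup_nil, and_true, not_false_eq_true]
    exact ⟨⟨ne _ _ (by decide), ne _ _ (by decide), (hz _).symm, ne _ _ (by decide),
      ne _ _ (by decide)⟩, ⟨ne _ _ (by decide), (hz _).symm, ne _ _ (by decide),
      ne _ _ (by decide)⟩, ⟨(hz _).symm, ne _ _ (by decide), ne _ _ (by decide)⟩,
      ⟨hz _, hz _⟩, ne _ _ (by decide)⟩
  have hle2 : G ≤ c6 (c6 G) := hle.trans (le_c6 _)
  refine ⟨?_, ?_, ?_, ?_⟩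
  · intro i j h
    fin_cases i <;> fin_cases j <;> first | rfl | exact absurd (hr h) (by decide)
  · intro i j h
    fin_cases i <;> fin_cases j <;> first | rfl | exact absurd (hr h) (by decide)
  · intro i j h
    fin_cases i <;> fin_cases j <;> exact absurd (hr h) (by decide)
  · intro i j
    fin_cases i <;> fin_cases j
    · exact hle2 a01
    · exact c03
    · exact hle2 a50.symm
    · exact hle2 a12.symm
    · exact hle2 a23
    · exact c25
    · exact c41
    · exact hle2 a34.symm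
    · exact hle2 a45

/-- The `C_6`-process stops after `log_5 n + 42` rounds, or a fan has appeared. -/
theorem core [Finite V] (K : SimpleGraph V) (n : ℕ) (hn : Nat.card V ≤ n)
    (hfan : ¬ HasFan (sq K (Nat.log 5 n + 42))) :
    sq K (Nat.log 5 n + 42) = sq K (Nat.log 5 n + 43) := by
  classical
  by_contra hne
  set t := Nat.log 5 n + 2 with ht
  have hTt : Nat.log 5 n + 42 = t + 40 := by omega
  have hTt' : Nat.log 5 n + 43 = t + 40 + 1 := by omega
  rw [hTt, hTt'] at hne
  rw [hTt] at hfan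
  obtain ⟨x, y, hxy⟩ : ∃ x y, (sq K (t + 40 + 1)).Adj x y ∧ ¬ (sq K (t + 40)).Adj x y := by
    by_contra h
    push Not at h
    exact hne (le_antisymm (sq_mono K (by omega)) (fun x y hxy => h x y hxy))
  have hP : P5 (sq K (t + 40)) x y := hxy.1.resolve_left hxy.2
  have hact : Act K x (t + 40) := ⟨x, y, Reachable.refl _, hxy.2, hP⟩
  have hall := act_le hact
  clear hP hxy hact y
  obtain ⟨u, v, hu, -, a, b, c, d, hnd, h1, h2, h3, h4, h5⟩ := hall t (by omega)
  have huv : (sq K (t + 1)).Adj u v := Or.inr ⟨a, b, c, d, hnd, h1, h2, h3, h4, h5⟩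
  have hle1 : sq K t ≤ sq K (t + 1) := sq_mono K (by omega)
  let r : Fin 6 → V := ![u, a, b, c, d, v]
  have hr : Injective r := vec_inj hnd
  have hadj : ∀ i, (sq K (t + 1)).Adj (r i) (r (i + 1)) := by
    intro i
    fin_cases i
    · exact hle1 h1
    · exact hle1 h2
    · exact hle1 h3
    · exact hle1 h4
    · exact hle1 h5
    · exact huv.symm
  have hrS : ∀ i, K.Reachable x (r i) := by
    have k1 := hu.trans (sq_reach K _ _ _ h1)
    have k2 := k1.trans (sq_reach K _ _ _ h2)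
    have k3 := k2.trans (sq_reach K _ _ _ h3)
    have k4 := k3.trans (sq_reach K _ _ _ h4)
    have k5 := k4.trans (sq_reach K _ _ _ h5)
    intro i
    fin_cases i
    · exact hu
    · exact k1
    · exact k2
    · exact k3
    · exact k4
    · exact k5
  by_cases hsmall : ∀ w, K.Reachable x w → ∃ i, w = r i
  · -- a component with six vertices
    let e : ℕ → Finset (Fin 6 × Fin 6) := fun j =>
      Finset.univ.filter fun p => (sq K j).Adj (r p.1) (r p.2)
    have hstep : ∀ k ≤ 40, (e (t + k)).card < (e (t + k + 1)).card := by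
      intro k hk
      apply Finset.card_lt_card
      rw [Finset.ssubset_iff_of_subset]
      · obtain ⟨p, q, hp, hpq, hPq⟩ := hall (t + k) (by omega)
        obtain ⟨i, rfl⟩ := hsmall p hp
        have hq : K.Reachable x q := hp.trans (hPq.reach (sq_reach K _))
        obtain ⟨j, rfl⟩ := hsmall q hq
        refine ⟨(i, j), ?_, ?_⟩
        · simp only [e, Finset.mem_filter, Finset.mem_univ, true_and]
          exact Or.inr hPq
        · simpa [e] using hpq
      · intro p hp
        simp only [e, Finset.mem_filter, Finset.mem_univ, true_and] at hp ⊢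
        exact le_c6 _ hp
    have hcount : ∀ k ≤ 40, k ≤ (e (t + k)).card := by
      intro k
      induction k with
      | zero => intro _; omega
      | succ k ih =>
        intro hk
        have := ih (by omega)
        have := hstep k (by omega)
        have e' : t + (k + 1) = t + k + 1 := by ring
        rw [e']; omega
    have h40 := hcount 40 le_rfl
    have hcard := Finset.card_le_univ (e (t + 40))
    simp at hcard
    omega
  · push Not at hsmall
    obtain ⟨w, hw, hwr⟩ := hsmall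
    have hreach : (sq K (t + 1)).Reachable (r 0) w :=
      ((hrS 0).symm.trans hw).mono (sq_mono K (Nat.zero_le (t + 1)))
    obtain ⟨p⟩ := hreach
    obtain ⟨dd, -, hd1, hd2⟩ := p.exists_boundary_dart (Set.range r) ⟨0, rfl⟩
      (by rintro ⟨i, hi⟩; exact hwr i hi.symm)
    obtain ⟨k, hk⟩ := hd1
    have hzadj : (sq K (t + 1)).Adj dd.snd (r k) := by rw [hk]; exact dd.adj.symm
    have hz : ∀ i, dd.snd ≠ r i := fun i h => hd2 ⟨i, h.symm⟩
    let r' : Fin 6 → V := fun i => r (i + k)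
    have hr' : Injective r' := fun i j h => add_right_cancel (hr h)
    have hadj' : ∀ i, (sq K (t + 1)).Adj (r' i) (r' (i + 1)) := by
      intro i
      have := hadj (i + k)
      have e : i + k + 1 = i + 1 + k := add_right_comm _ _ _
      rwa [e] at this
    have B : Blk (sq K (t + 3)) ![r' 0, r' 2, r' 4] ![r' 1, r' 3, r' 5] := by
      apply make_block hr' hadj' (z := dd.snd) (fun i => hz _)
      change (sq K (t + 1)).Adj dd.snd (r (0 + k))
      rwa [zero_add]
    set X := ![r' 0, r' 2, r' 4] with hX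
    set Y := ![r' 1, r' 3, r' 5] with hY
    have hX0 : K.Reachable x (X 0) := by
      change K.Reachable x (r (0 + k))
      exact hrS _
    have hatt : ∀ w, K.Reachable x w → Att (sq K (t + 7)) X Y w := by
      intro w hw
      have hn4 := (near_four K n hn (hw.symm.trans hX0)).mono
        (sq_mono K (show Nat.log 5 n + 2 ≤ t + 3 by omega)) (le_refl 4)
      exact spread_walk B 4 w hn4
    have B7 : Blk (sq K (t + 7)) X Y := B.mono (sq_mono K (by omega))
    have B8 : Blk (sq K (t + 8)) X Y := B.mono (sq_mono K (by omega))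
    have hle78 : sq K (t + 7) ≤ sq K (t + 8) := sq_mono K (by omega)
    obtain ⟨u, v, hu, huv, a, b, c, d, hnd, h1, h2, h3, h4, h5⟩ := hall (t + 8) (by omega)
    have ra := hu.trans (sq_reach K _ _ _ h1)
    have rb := ra.trans (sq_reach K _ _ _ h2)
    have rc := rb.trans (sq_reach K _ _ _ h3)
    have rd := rc.trans (sq_reach K _ _ _ h4)
    have rv := rd.trans (sq_reach K _ _ _ h5)
    have hne' : u ≠ v := by rintro rfl; simp at hnd
    have hfan9 : HasFan (sq K (t + 9)) := by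
      rcases hatt u hu with tu | tu <;> rcases hatt v rv with tv | tv
      · exact path_same B8 h1 h2 h3 h4 h5 (tu.mono hle78) ((hatt a ra).mono hle78)
          ((hatt b rb).mono hle78) ((hatt c rc).mono hle78) ((hatt d rd).mono hle78)
          (tv.mono hle78)
      · exact absurd (opposite B7 hne' tu tv) huv
      · exact absurd (opposite B7 hne'.symm tv tu).symm huv
      · exact path_same B8.swap h1 h2 h3 h4 h5 (tu.mono hle78) ((hatt a ra).mono hle78).swap
          ((hatt b rb).mono hle78).swap ((hatt c rc).mono hle78).swap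
          ((hatt d rd).mono hle78).swap (tv.mono hle78)
    exact hfan (hfan9.mono (sq_mono K (by omega)))

end Q274.GB
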