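import Pool.Agent.Q274.GB.Wheel

/-!
# Where a new copy of the wheel can appear
-/

set_option autoImplicit false

namespace Q274.GB

open SimpleGraph Function

variable {V : Type}

/-- There is a path with five edges from `x` to `y`. -/
def P5 (G : SimpleGraph V) (x y : V) : Prop :=
  ∃ a b c d, [x, a, b, c, d, y].Nodup ∧ G.Adj x a ∧ G.Adj a b ∧ G.Adj b c ∧ G.Adj c d ∧ G.Adj d y

theorem P5.symm {G : SimpleGraph V} {x y : V} (h : P5 G x y) : P5 G y x := by
  obtain ⟨a, b, c, d, hn, h1, h2, h3, h4, h5⟩ := h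
  refine ⟨d, c, b, a, ?_, h5.symm, h4.symm, h3.symm, h2.symm, h1.symm⟩
  have := List.nodup_reverse.mpr hn
  simpa using this

theorem P5.mono {G G' : SimpleGraph V} (hle : G ≤ G') {x y : V} (h : P5 G x y) : P5 G' x y := by
  obtain ⟨a, b, c, d, hn, h1, h2, h3, h4, h5⟩ := h
  exact ⟨a, b, c, d, hn, hle h1, hle h2, hle h3, hle h4, hle h5⟩

theorem P5.ne {G : SimpleGraph V} {x y : V} (h : P5 G x y) : x ≠ y := by
  obtain ⟨a, b, c, d, hn, -⟩ := h
  rintro rfl
  simp at hn

theorem vec_inj {x a b c d y : V} (h : [x, a, b, c, d, y].Nodup) :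
    Injective ![x, a, b, c, d, y] := by
  rw [← List.nodup_ofFn]
  simpa using h

/-- In a graph that is bipartite off `o` every new wheel has the hub `o`. -/
theorem hub_eq {G : SimpleGraph V} (c : V → Bool) (o : V)
    (good : ∀ a b, a ≠ o → b ≠ o → G.Adj a b → c a ≠ c b) {x y h : V} {r : Fin 6 → V}
    (hxy : x ≠ y) (w : Wh (G ⊔ edge x y) h r) : h = o := by
  by_contra hho
  have tri : ∀ a b d, a ≠ o → b ≠ o → d ≠ o → (G ⊔ edge x y).Adj a b → (G ⊔ edge x y).Adj b d →
      (G ⊔ edge x y).Adj a d → (x = a ∨ x = b ∨ x = d) ∧ (y = a ∨ y = b ∨ y = d) := by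
    intro a b d ha hb hd hab hbd had
    rw [sup_edge_adj] at hab hbd had
    rcases hab with hab | ⟨-, ⟨rfl, rfl⟩ | ⟨rfl, rfl⟩⟩
    · rcases hbd with hbd | ⟨-, ⟨rfl, rfl⟩ | ⟨rfl, rfl⟩⟩
      · rcases had with had | ⟨-, ⟨rfl, rfl⟩ | ⟨rfl, rfl⟩⟩
        · exfalso
          have h1 := good a b ha hb hab
          have h2 := good b d hb hd hbd
          have h3 := good a d ha hd had
          revert h1 h2 h3
          cases c a <;> cases c b <;> cases c d <;> simp
        · simp
        · simp
      · simp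
      · simp
    · simp
    · simp
  obtain ⟨k, hk⟩ : ∃ k : Fin 6, ∀ j, j ≠ k → r j ≠ o := by
    by_cases h' : ∃ k, r k = o
    · obtain ⟨k, hk⟩ := h'
      exact ⟨k, fun j hj hjo => hj (w.inj (hjo.trans hk.symm))⟩
    · push Not at h'
      exact ⟨0, fun j _ => h' j⟩
  have t1 := tri h (r (k + 1)) (r (k + 2)) hho (hk _ (by clear * - k; revert k; decide)) (hk _ (by clear * - k; revert k; decide))
    (w.spoke _) (by have := w.rim (k + 1); rwa [add_assoc] at this) (w.spoke _)
  have t2 := tri h (r (k + 3)) (r (k + 4)) hho (hk _ (by clear * - k; revert k; decide)) (hk _ (by clear * - k; revert k; decide))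
    (w.spoke _) (by have := w.rim (k + 3); rwa [add_assoc] at this) (w.spoke _)
  have e1 : r (k + 1) ≠ r (k + 3) := w.inj.ne (by clear * - k; revert k; decide)
  have e2 : r (k + 1) ≠ r (k + 4) := w.inj.ne (by clear * - k; revert k; decide)
  have e3 : r (k + 2) ≠ r (k + 3) := w.inj.ne (by clear * - k; revert k; decide)
  have e4 : r (k + 2) ≠ r (k + 4) := w.inj.ne (by clear * - k; revert k; decide)
  have hx : x = h := by
    rcases t1.1 with h1 | h1 | h1
    · exact h1
    · rcases t2.1 with h2 | h2 | h2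
      · exact h2
      · exact absurd (h1.symm.trans h2) e1
      · exact absurd (h1.symm.trans h2) e2
    · rcases t2.1 with h2 | h2 | h2
      · exact h2
      · exact absurd (h1.symm.trans h2) e3
      · exact absurd (h1.symm.trans h2) e4
  have hy : y = h := by
    rcases t1.2 with h1 | h1 | h1
    · exact h1
    · rcases t2.2 with h2 | h2 | h2
      · exact h2
      · exact absurd (h1.symm.trans h2) e1
      · exact absurd (h1.symm.trans h2) e2
    · rcases t2.2 with h2 | h2 | h2
      · exact h2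
      · exact absurd (h1.symm.trans h2) e3
      · exact absurd (h1.symm.trans h2) e4
  exact hxy (hx.trans hy.symm)

/-- If a new wheel has the hub `o` and the new edge `x y` avoids `o`, then there is a path with five
edges from `x` to `y` through neighbours of `o`. -/
theorem rim_path {G : SimpleGraph V} {o x y : V} {r : Fin 6 → V} (hx : x ≠ o) (hy : y ≠ o)
    (w : Wh (G ⊔ edge x y) o r) (hw : ¬ Wh G o r) :
    ∃ a b c d, [x, a, b, c, d, y].Nodup ∧ G.Adj x a ∧ G.Adj a b ∧ G.Adj b c ∧ G.Adj c d ∧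
      G.Adj d y ∧ (∀ z ∈ [x, a, b, c, d, y], G.Adj o z) := by
  have hsp : ∀ i, G.Adj o (r i) := by
    intro i
    have := w.spoke i
    rw [sup_edge_adj] at this
    rcases this with h | ⟨-, ⟨h, -⟩ | ⟨h, -⟩⟩
    · exact h
    · exact absurd h.symm hx
    · exact absurd h.symm hy
  have hne : ∃ i, ¬ G.Adj (r i) (r (i + 1)) := by
    by_contra h
    push Not at h
    exact hw ⟨w.inj, w.hub, hsp, h⟩
  obtain ⟨i, hi⟩ := hne
  have hi' : (r i = x ∧ r (i + 1) = y) ∨ (r i = y ∧ r (i + 1) = x) := by
    have := w.rim i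
    rw [sup_edge_adj] at this
    rcases this with h | ⟨-, h⟩
    · exact absurd h hi
    · exact h
  have hother : ∀ j, j ≠ i → G.Adj (r j) (r (j + 1)) := by
    intro j hj
    have := w.rim j
    rw [sup_edge_adj] at this
    rcases this with h | ⟨-, h⟩
    · exact h
    · exfalso
      have hcase : (r j = r i) ∨ (r j = r (i + 1) ∧ r (j + 1) = r i) := by
        rcases hi' with ⟨h1, h2⟩ | ⟨h1, h2⟩ <;> rcases h with ⟨h3, h4⟩ | ⟨h3, h4⟩
        · left; rw [h1, h3]
        · right; rw [h1, h2]; exact ⟨h3, h4⟩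
        · right; rw [h1, h2]; exact ⟨h3, h4⟩
        · left; rw [h1, h3]
      rcases hcase with h | ⟨h1, h2⟩
      · exact hj (w.inj h)
      · have e1 := w.inj h1
        have e2 := w.inj h2
        clear * - e1 e2; revert e1 e2; revert i j; decide
  have hpath : ∃ a b c d, [r (i + 1), a, b, c, d, r i].Nodup ∧ G.Adj (r (i + 1)) a ∧ G.Adj a b ∧
      G.Adj b c ∧ G.Adj c d ∧ G.Adj d (r i) ∧ (∀ z ∈ [r (i + 1), a, b, c, d, r i], G.Adj o z) := by
    refine ⟨r (i + 2), r (i + 3), r (i + 4), r (i + 5), ?_, ?_, ?_, ?_, ?_, ?_, ?_⟩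
    · have : [i + 1, i + 2, i + 3, i + 4, i + 5, i].Nodup := by clear * - i; revert i; decide
      simpa using this.map w.inj
    · have := hother (i + 1) (by clear * - i; revert i; decide); rwa [add_assoc] at this
    · have := hother (i + 2) (by clear * - i; revert i; decide); rwa [add_assoc] at this
    · have := hother (i + 3) (by clear * - i; revert i; decide); rwa [add_assoc] at this
    · have := hother (i + 4) (by clear * - i; revert i; decide); rwa [add_assoc] at this
    · have := hother (i + 5) (by clear * - i; revert i; decide)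
      have e : i + 5 + 1 = i := by clear * - i; revert i; decide
      rwa [e] at this
    · intro z hz
      simp only [List.mem_cons, List.not_mem_nil, or_false] at hz
      rcases hz with rfl | rfl | rfl | rfl | rfl | rfl <;> exact hsp _
  rcases hi' with ⟨h1, h2⟩ | ⟨h1, h2⟩
  · obtain ⟨a, b, c, d, hn, p1, p2, p3, p4, p5, hz⟩ := hpath
    rw [h1, h2] at hn hz
    rw [h2] at p1
    rw [h1] at p5
    refine ⟨d, c, b, a, ?_, p5.symm, p4.symm, p3.symm, p2.symm, p1.symm, ?_⟩
    · have := List.nodup_reverse.mpr hn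
      simpa using this
    · intro z hz'
      apply hz
      simp only [List.mem_cons, List.not_mem_nil, or_false] at hz' ⊢
      tauto
  · obtain ⟨a, b, c, d, hn, p1, p2, p3, p4, p5, hz⟩ := hpath
    rw [h1, h2] at hn hz
    rw [h2] at p1
    rw [h1] at p5
    exact ⟨a, b, c, d, hn, p1, p2, p3, p4, p5, hz⟩

/-- A new spoke at `y`: `y` has two neighbours that are neighbours of `o`. -/
theorem spoke_two {G : SimpleGraph V} {o y : V} {r : Fin 6 → V}
    (w : Wh (G ⊔ edge o y) o r) (hw : ¬ Wh G o r) :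
    ∃ z z', z ≠ z' ∧ z ≠ o ∧ z' ≠ o ∧ G.Adj o z ∧ G.Adj o z' ∧ G.Adj y z ∧ G.Adj y z' := by
  have hrim : ∀ i, G.Adj (r i) (r (i + 1)) := by
    intro i
    have := w.rim i
    rw [sup_edge_adj] at this
    rcases this with h | ⟨-, ⟨h, -⟩ | ⟨-, h⟩⟩
    · exact h
    · exact absurd h.symm (w.hub i)
    · exact absurd h.symm (w.hub (i + 1))
  have hne : ∃ i, ¬ G.Adj o (r i) := by
    by_contra h
    push Not at h
    exact hw ⟨w.inj, w.hub, h, hrim⟩
  obtain ⟨i, hi⟩ := hne
  have hiy : r i = y := by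
    have := w.spoke i
    rw [sup_edge_adj] at this
    rcases this with h | ⟨-, ⟨-, h⟩ | ⟨-, h⟩⟩
    · exact absurd h hi
    · exact h
    · exact absurd h.symm (w.hub i)
  have hother : ∀ j, j ≠ i → G.Adj o (r j) := by
    intro j hj
    have := w.spoke j
    rw [sup_edge_adj] at this
    rcases this with h | ⟨-, ⟨-, h⟩ | ⟨-, h⟩⟩
    · exact h
    · exact absurd (w.inj (h.trans hiy.symm)) hj
    · exact absurd h.symm (w.hub j)
  refine ⟨r (i + 1), r (i + 5), w.inj.ne (by clear * - i; revert i; decide), (w.hub _).symm, (w.hub _).symm,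
    hother _ (by clear * - i; revert i; decide), hother _ (by clear * - i; revert i; decide), ?_, ?_⟩
  · rw [← hiy]; exact hrim i
  · rw [← hiy]
    have := hrim (i + 5)
    have e : i + 5 + 1 = i := by clear * - i; revert i; decide
    rw [e] at this
    exact this.symm

end Q274.GB
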