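import Pool.Agent.Q274.GB.Lower
import Pool.Agent.Q274.GB.Six

/-!
# The running time of the wheel with a pendant edge at the hub is at most `log_5 n + 50`
-/

set_option autoImplicit false

namespace Q274.GB

open SimpleGraph Function

variable {V : Type}

theorem fresh [Finite V] (l : List V) (hl : l.length < Nat.card V) : ∃ p, p ∉ l := by
  classical
  have := Fintype.ofFinite V
  by_contra h
  push Not at h
  have h1 : (Finset.univ : Finset V) ⊆ l.toFinset := fun x _ => List.mem_toFinset.mpr (h x)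
  have h2 := Finset.card_le_card h1
  have h3 := l.toFinset_card_le
  rw [Finset.card_univ, ← Nat.card_eq_fintype_card] at h2
  omega

/-- The hub of a wheel becomes adjacent to everything. -/
theorem univ_step [Finite V] {G : SimpleGraph V} {h : V} {r : Fin 6 → V} (w : Wh G h r) :
    ∀ y, y ≠ h → (step PW G).Adj h y := by
  intro y hy
  rw [step_adj]
  refine ⟨hy.symm, ?_⟩
  by_cases hr : ∃ i, r i = y
  · obtain ⟨i, rfl⟩ := hr; exact Or.inl (w.spoke i)
  push Not at hr
  by_cases hG : G.Adj h y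
  · exact Or.inl hG
  right
  rw [newCopy_pendant]
  refine ⟨h, r, y, ⟨w.mono le_sup_left, hy.symm, hr, ?_⟩, fun W => hG W.adj⟩
  rw [sup_edge_adj]; exact Or.inr ⟨hy.symm, Or.inl ⟨rfl, rfl⟩⟩

/-- The graph without the edges at `o`. -/
def off (o : V) (G : SimpleGraph V) : SimpleGraph V where
  Adj x y := G.Adj x y ∧ x ≠ o ∧ y ≠ o
  symm := ⟨fun _ _ h => ⟨h.1.symm, h.2.2, h.2.1⟩⟩
  loopless := ⟨fun _ h => h.1.ne rfl⟩

/-- There is a wheel with a hub different from `o`. -/
def EventB (o : V) (G : SimpleGraph V) : Prop := ∃ h r, h ≠ o ∧ Wh G h r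

theorem sup_edge_le_step [Finite V] {G : SimpleGraph V} {x y : V} (h : (step PW G).Adj x y) :
    G ⊔ edge x y ≤ step PW G := by
  intro a b hab
  rw [sup_edge_adj] at hab
  rcases hab with hab | ⟨-, ⟨rfl, rfl⟩ | ⟨rfl, rfl⟩⟩
  · exact le_step _ _ hab
  · exact h
  · exact h.symm

theorem off_step [Finite V] {G : SimpleGraph V} {o : V} (hu : ∀ z, z ≠ o → G.Adj o z)
    (hcard : 8 ≤ Nat.card V) (hB : ¬ EventB o (step PW G)) :
    off o (step PW G) = c6 (off o G) := by
  ext x y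
  constructor
  · rintro ⟨hs, hx, hy⟩
    have hs' := hs
    rw [step_adj] at hs
    obtain ⟨hxy, hs | hs⟩ := hs
    · exact Or.inl ⟨hs, hx, hy⟩
    rw [newCopy_pendant] at hs
    obtain ⟨h, r, p, W, hW⟩ := hs
    have hh : h = o := by
      by_contra hne
      exact hB ⟨h, r, hne, W.wh.mono (sup_edge_le_step hs')⟩
    subst hh
    have hw : ¬ Wh G h r := fun w => hW ⟨w, W.hp, W.rp, hu p W.hp.symm⟩
    obtain ⟨a, b, c, d, hn, h1, h2, h3, h4, h5, ho⟩ := rim_path hx hy W.wh hw
    have ne : ∀ z ∈ [x, a, b, c, d, y], z ≠ h := fun z hz => (ho z hz).ne'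
    have na := ne a (by simp)
    have nb := ne b (by simp)
    have nc := ne c (by simp)
    have nd := ne d (by simp)
    exact Or.inr ⟨a, b, c, d, hn, ⟨h1, hx, na⟩, ⟨h2, na, nb⟩, ⟨h3, nb, nc⟩, ⟨h4, nc, nd⟩,
      ⟨h5, nd, hy⟩⟩
  · rintro (h | ⟨a, b, c, d, hn, h1, h2, h3, h4, h5⟩)
    · exact ⟨le_step _ _ h.1, h.2⟩
    · refine ⟨rim_close hu hcard ⟨a, b, c, d, hn, h1.1, h2.1, h3.1, h4.1, h5.1, ?_⟩, h1.2.1,
        h5.2.2⟩
      intro z hz
      simp only [List.mem_cons, List.not_mem_nil, or_false] at hz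
      rcases hz with rfl | rfl | rfl | rfl | rfl | rfl
      · exact h1.2.1
      · exact h1.2.2
      · exact h2.2.2
      · exact h3.2.2
      · exact h4.2.2
      · exact h5.2.2

theorem fan_event {G : SimpleGraph V} {o : V} (hu : ∀ z, z ≠ o → G.Adj o z)
    (hf : HasFan (off o G)) : EventB o G := by
  obtain ⟨h, a, b, c, d, e, hn, h1, h2, h3, h4, h5, h6, h7, h8, h9⟩ := hf
  refine ⟨h, ![o, a, b, c, d, e], h5.2.1, wh_path ?_ (hu a h1.2.1) h1.1 h2.1 h3.1 h4.1
    (hu e h4.2.2).symm ?_⟩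
  · have hn' := (List.nodup_cons.mp hn).2
    refine List.nodup_cons.mpr ⟨?_, hn'⟩
    simp only [List.mem_cons, List.not_mem_nil, or_false, not_or]
    exact ⟨h1.2.1.symm, h1.2.2.symm, h2.2.2.symm, h3.2.2.symm, h4.2.2.symm⟩
  · intro z hz
    simp only [List.mem_cons, List.not_mem_nil, or_false] at hz
    rcases hz with rfl | rfl | rfl | rfl | rfl | rfl
    · exact (hu h h5.2.1).symm
    · exact h5.1
    · exact h6.1
    · exact h7.1
    · exact h8.1
    · exact h9.1

theorem univ_mono {G G' : SimpleGraph V} {o : V} (hle : G ≤ G') (hu : ∀ z, z ≠ o → G.Adj o z) :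
    ∀ z, z ≠ o → G'.Adj o z := fun z hz => hle (hu z hz)

theorem pick4 {K : Fin 4 → V} (hK : Injective K) (x : V) :
    ∃ i j, i ≠ j ∧ K i ≠ x ∧ K j ≠ x := by
  by_cases h : ∃ k, K k = x
  · obtain ⟨k, rfl⟩ := h
    have : ∀ k : Fin 4, ∃ i j, i ≠ j ∧ i ≠ k ∧ j ≠ k := by decide
    obtain ⟨i, j, h1, h2, h3⟩ := this k
    exact ⟨i, j, h1, hK.ne h2, hK.ne h3⟩
  · push Not at h
    exact ⟨0, 1, by decide, h 0, h 1⟩

theorem pick4' {K : Fin 4 → V} (hK : Injective K) (x y : V) : ∃ i, K i ≠ x ∧ K i ≠ y := by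
  obtain ⟨i, j, h1, h2, h3⟩ := pick4 hK x
  by_cases h : K i = y
  · exact ⟨j, h3, by rw [← h]; exact hK.ne h1.symm⟩
  · exact ⟨i, h2, h⟩

/-- Two universal vertices and a path of five vertices: complete after two rounds. -/
theorem two_hubs [Finite V] (hcard : 20 ≤ Nat.card V) {G : SimpleGraph V} {o h : V} (hoh : h ≠ o)
    (hu : ∀ z, z ≠ o → G.Adj o z) (hh : ∀ z, z ≠ h → G.Adj h z) {a1 a2 a3 a4 a5 : V}
    (hn : [a1, a2, a3, a4, a5].Nodup) (h12 : G.Adj a1 a2) (h23 : G.Adj a2 a3) (h34 : G.Adj a3 a4)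
    (h45 : G.Adj a4 a5) (ho : ∀ z ∈ [a1, a2, a3, a4, a5], z ≠ o)
    (hhz : ∀ z ∈ [a1, a2, a3, a4, a5], z ≠ h) : step PW (step PW G) = ⊤ := by
  have rule : ∀ {G' : SimpleGraph V}, G ≤ G' → ∀ {q1 q2 q3 q4 z : V},
      [q1, q2, q3, q4, h, z].Nodup → G'.Adj q1 q2 → G'.Adj q2 q3 → G'.Adj q3 q4 →
      (∀ t ∈ [q1, q2, q3, q4, h, z], t ≠ o) → (step PW G').Adj q1 z := by
    intro G' hle q1 q2 q3 q4 z hnd e1 e2 e3 hto
    have hq4 : q4 ≠ h := by
      rintro rfl; simp at hnd
    have hz : z ≠ h := by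
      rintro rfl; simp at hnd
    exact rim_close (univ_mono hle hu) (by omega) ⟨q2, q3, q4, h, hnd, e1, e2, e3,
      (hle (hh q4 hq4)).symm, hle (hh z hz), hto⟩
  simp only [List.nodup_cons, List.mem_cons, List.not_mem_nil, or_false, not_or, List.nodup_nil,
    and_true, not_false_eq_true] at hn
  obtain ⟨⟨n12, n13, n14, n15⟩, ⟨n23, n24, n25⟩, ⟨n34, n35⟩, n45⟩ := hn
  simp only [List.mem_cons, List.not_mem_nil, or_false, forall_eq_or_imp, forall_eq] at ho hhz
  obtain ⟨o1, o2, o3, o4, o5⟩ := ho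
  obtain ⟨k1, k2, k3, k4, k5⟩ := hhz
  -- first round
  have r1 : ∀ z, z ∉ [o, h, a1, a2, a3, a4, a5] → (step PW G).Adj z a1 ∧ (step PW G).Adj z a2 ∧
      (step PW G).Adj z a4 ∧ (step PW G).Adj z a5 := by
    intro z hz
    simp only [List.mem_cons, List.not_mem_nil, or_false, not_or] at hz
    obtain ⟨zo, zh, z1, z2, z3, z4, z5⟩ := hz
    refine ⟨(rule le_rfl (q1 := a1) (q2 := a2) (q3 := a3) (q4 := a4) ?_ h12 h23 h34 ?_).symm,
      (rule le_rfl (q1 := a2) (q2 := a3) (q3 := a4) (q4 := a5) ?_ h23 h34 h45 ?_).symm,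
      (rule le_rfl (q1 := a4) (q2 := a3) (q3 := a2) (q4 := a1) ?_ h34.symm h23.symm h12.symm
        ?_).symm,
      (rule le_rfl (q1 := a5) (q2 := a4) (q3 := a3) (q4 := a2) ?_ h45.symm h34.symm h23.symm
        ?_).symm⟩
    · simp only [List.nodup_cons, List.mem_cons, List.not_mem_nil, or_false, not_or,
        List.nodup_nil, and_true, not_false_eq_true]
      exact ⟨⟨n12, n13, n14, k1, Ne.symm z1⟩, ⟨n23, n24, k2, Ne.symm z2⟩, ⟨n34, k3, Ne.symm z3⟩,
        ⟨k4, Ne.symm z4⟩, Ne.symm zh⟩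
    · simp only [List.mem_cons, List.not_mem_nil, or_false, forall_eq_or_imp, forall_eq]
      exact ⟨o1, o2, o3, o4, hoh, zo⟩
    · simp only [List.nodup_cons, List.mem_cons, List.not_mem_nil, or_false, not_or,
        List.nodup_nil, and_true, not_false_eq_true]
      exact ⟨⟨n23, n24, n25, k2, Ne.symm z2⟩, ⟨n34, n35, k3, Ne.symm z3⟩, ⟨n45, k4, Ne.symm z4⟩,
        ⟨k5, Ne.symm z5⟩, Ne.symm zh⟩
    · simp only [List.mem_cons, List.not_mem_nil, or_false, forall_eq_or_imp, forall_eq]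
      exact ⟨o2, o3, o4, o5, hoh, zo⟩
    · simp only [List.nodup_cons, List.mem_cons, List.not_mem_nil, or_false, not_or,
        List.nodup_nil, and_true, not_false_eq_true]
      exact ⟨⟨Ne.symm n34, Ne.symm n24, Ne.symm n14, k4, Ne.symm z4⟩,
        ⟨Ne.symm n23, Ne.symm n13, k3, Ne.symm z3⟩, ⟨Ne.symm n12, k2, Ne.symm z2⟩,
        ⟨k1, Ne.symm z1⟩, Ne.symm zh⟩
    · simp only [List.mem_cons, List.not_mem_nil, or_false, forall_eq_or_imp, forall_eq]
      exact ⟨o4, o3, o2, o1, hoh, zo⟩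
    · simp only [List.nodup_cons, List.mem_cons, List.not_mem_nil, or_false, not_or,
        List.nodup_nil, and_true, not_false_eq_true]
      exact ⟨⟨Ne.symm n45, Ne.symm n35, Ne.symm n25, k5, Ne.symm z5⟩,
        ⟨Ne.symm n34, Ne.symm n24, k4, Ne.symm z4⟩, ⟨Ne.symm n23, k3, Ne.symm z3⟩,
        ⟨k2, Ne.symm z2⟩, Ne.symm zh⟩
    · simp only [List.mem_cons, List.not_mem_nil, or_false, forall_eq_or_imp, forall_eq]
      exact ⟨o5, o4, o3, o2, hoh, zo⟩
  set G2 := step PW G with hG2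
  have hle2 : G ≤ G2 := le_step _ _
  let K : Fin 4 → V := ![a1, a2, a4, a5]
  have hK : Injective K := by
    rw [← List.nodup_ofFn]
    simp only [K, List.ofFn_succ, List.ofFn_zero]
    simp [n12, n14, n15, n24, n25, n45]
  have hKz : ∀ z, z ∉ [o, h, a1, a2, a3, a4, a5] → ∀ i, G2.Adj z (K i) := by
    intro z hz i
    obtain ⟨t1, t2, t3, t4⟩ := r1 z hz
    fin_cases i
    · exact t1
    · exact t2
    · exact t3
    · exact t4
  have hKo : ∀ i, K i ≠ o := by
    intro i; fin_cases i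
    · exact o1
    · exact o2
    · exact o4
    · exact o5
  have hKh : ∀ i, K i ≠ h := by
    intro i; fin_cases i
    · exact k1
    · exact k2
    · exact k4
    · exact k5
  have hKm : ∀ i, K i ∈ [o, h, a1, a2, a3, a4, a5] := by
    intro i; fin_cases i <;> simp [K]
  have pairs : ∀ x y, x ≠ y → x ≠ o → x ≠ h → y ≠ o → y ≠ h → y ≠ a3 → (step PW G2).Adj y x := by
    intro x y hxy hxo hxh hyo hyh hy3
    obtain ⟨z1, hz1⟩ := fresh [o, h, a1, a2, a3, a4, a5, x, y] (by simp; omega)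
    obtain ⟨z2, hz2⟩ := fresh [o, h, a1, a2, a3, a4, a5, x, y, z1] (by simp; omega)
    have hz1' : z1 ∉ [o, h, a1, a2, a3, a4, a5] := fun hm => hz1 (by
      simp only [List.mem_cons, List.not_mem_nil, or_false] at hm ⊢; tauto)
    have hz2' : z2 ∉ [o, h, a1, a2, a3, a4, a5] := fun hm => hz2 (by
      simp only [List.mem_cons, List.not_mem_nil, or_false] at hm ⊢; tauto)
    simp only [List.mem_cons, List.not_mem_nil, or_false, not_or] at hz1 hz2
    obtain ⟨z1o, z1h, -, -, -, -, -, z1x, z1y⟩ := hz1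
    obtain ⟨z2o, z2h, -, -, -, -, -, z2x, z2y, z21⟩ := hz2
    have zK : ∀ z, z ∉ [o, h, a1, a2, a3, a4, a5] → ∀ i, K i ≠ z := by
      rintro z hz i rfl; exact hz (hKm i)
    by_cases hyK : ∃ i, K i = y
    · obtain ⟨i, rfl⟩ := hyK
      obtain ⟨j, hj1, hj2⟩ := pick4' hK x (K i)
      refine rule hle2 (q2 := z1) (q3 := K j) (q4 := z2) ?_ (hKz z1 hz1' i).symm (hKz z1 hz1' j)
        (hKz z2 hz2' j).symm ?_
      · have u1 := zK z1 hz1' i
        have u2 := zK z1 hz1' j
        have u3 := zK z2 hz2' i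
        have u4 := zK z2 hz2' j
        have u5 := hKh j
        simp only [List.nodup_cons, List.mem_cons, List.not_mem_nil, or_false, not_or,
          List.nodup_nil, and_true, not_false_eq_true]
        exact ⟨⟨u1, hj2.symm, u3, hyh, hxy.symm⟩, ⟨u2.symm, fun e => z21 e.symm, z1h, z1x⟩,
          ⟨u4, u5, hj1⟩, ⟨z2h, z2x⟩, hxh.symm⟩
      · simp only [List.mem_cons, List.not_mem_nil, or_false, forall_eq_or_imp, forall_eq]
        exact ⟨hyo, z1o, hKo j, z2o, hoh, hxo⟩
    · push Not at hyK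
      have hy' : y ∉ [o, h, a1, a2, a3, a4, a5] := by
        have t1 := hyK 0
        have t2 := hyK 1
        have t3 := hyK 2
        have t4 := hyK 3
        change a1 ≠ y at t1
        change a2 ≠ y at t2
        change a4 ≠ y at t3
        change a5 ≠ y at t4
        simp only [List.mem_cons, List.not_mem_nil, or_false, not_or]
        exact ⟨hyo, hyh, t1.symm, t2.symm, hy3, t3.symm, t4.symm⟩
      obtain ⟨i, j, hij, hi, hj⟩ := pick4 hK x
      refine rule hle2 (q2 := K i) (q3 := z1) (q4 := K j) ?_ (hKz y hy' i) (hKz z1 hz1' i).symm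
        (hKz z1 hz1' j) ?_
      · have u1 := zK z1 hz1' i
        have u2 := zK z1 hz1' j
        simp only [List.nodup_cons, List.mem_cons, List.not_mem_nil, or_false, not_or,
          List.nodup_nil, and_true, not_false_eq_true]
        exact ⟨⟨(hyK i).symm, fun e => z1y e.symm, (hyK j).symm, hyh, hxy.symm⟩,
          ⟨u1, hK.ne hij, hKh i, hi⟩, ⟨u2.symm, z1h, z1x⟩, ⟨hKh j, hj⟩, hxh.symm⟩
      · simp only [List.mem_cons, List.not_mem_nil, or_false, forall_eq_or_imp, forall_eq]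
        exact ⟨hyo, hKo i, z1o, hKo j, hoh, hxo⟩
  rw [eq_top_iff]
  intro x y hxy
  have hxy' : x ≠ y := hxy
  have hle3 : G ≤ step PW G2 := hle2.trans (le_step _ _)
  by_cases hxo : x = o
  · subst hxo; exact hle3 (hu y hxy'.symm)
  by_cases hyo : y = o
  · subst hyo; exact (hle3 (hu x hxy')).symm
  by_cases hxh : x = h
  · subst hxh; exact hle3 (hh y hxy'.symm)
  by_cases hyh : y = h
  · subst hyh; exact (hle3 (hh x hxy')).symm
  by_cases hy3 : y = a3
  · have hx3 : x ≠ a3 := fun e => hxy' (e.trans hy3.symm)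
    exact pairs y x hxy'.symm hyo hyh hxo hxh hx3
  · exact (pairs x y hxy' hxo hxh hyo hyh hy3).symm

theorem event_top [Finite V] (hcard : 20 ≤ Nat.card V) {G : SimpleGraph V} {o : V}
    (hu : ∀ z, z ≠ o → G.Adj o z) (hE : EventB o G) :
    step PW (step PW (step PW G)) = ⊤ := by
  obtain ⟨h, r, hho, w⟩ := hE
  have hle : G ≤ step PW G := le_step _ _
  obtain ⟨k, hk⟩ : ∃ k : Fin 6, ∀ j, j ≠ k → r j ≠ o := by
    by_cases h' : ∃ k, r k = o
    · obtain ⟨k, hk⟩ := h'
      exact ⟨k, fun j hj hjo => hj (w.inj (hjo.trans hk.symm))⟩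
    · push Not at h'
      exact ⟨0, fun j _ => h' j⟩
  have e1 := w.rim (k + 1)
  have e2 := w.rim (k + 2)
  have e3 := w.rim (k + 3)
  have e4 := w.rim (k + 4)
  rw [add_assoc] at e1 e2 e3 e4
  refine two_hubs hcard hho (univ_mono hle hu) (univ_step w) (a1 := r (k + 1)) (a2 := r (k + 2))
    (a3 := r (k + 3)) (a4 := r (k + 4)) (a5 := r (k + 5)) ?_ (hle e1) (hle e2) (hle e3) (hle e4)
    ?_ ?_
  · have : [k + 1, k + 2, k + 3, k + 4, k + 5].Nodup := by clear * - k; revert k; decide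
    simpa using this.map w.inj
  · simp only [List.mem_cons, List.not_mem_nil, or_false, forall_eq_or_imp, forall_eq]
    refine ⟨hk _ ?_, hk _ ?_, hk _ ?_, hk _ ?_, hk _ ?_⟩ <;>
      (clear * - k; revert k; decide)
  · simp only [List.mem_cons, List.not_mem_nil, or_false, forall_eq_or_imp, forall_eq]
    exact ⟨(w.hub _).symm, (w.hub _).symm, (w.hub _).symm, (w.hub _).symm, (w.hub _).symm⟩

theorem upper_run [Finite V] (hcard : 20 ≤ Nat.card V) (G : SimpleGraph V) :
    runTime PW G ≤ Nat.log 5 (Nat.card V) + 48 := by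
  classical
  by_cases h01 : proc PW G 0 = proc PW G 1
  · exact (runTime_le PW G 0 h01).trans (Nat.zero_le _)
  obtain ⟨x, y, hxy, hxy'⟩ : ∃ x y, (proc PW G 1).Adj x y ∧ ¬ G.Adj x y := by
    by_contra h
    push Not at h
    exact h01 (le_antisymm (proc_le PW G 0) (fun x y hxy => h x y hxy))
  have hnew : NewCopy PW G x y := ((step_adj PW G x y).mp hxy).2.resolve_left hxy'
  rw [newCopy_pendant] at hnew
  obtain ⟨o, r, p, W, -⟩ := hnew
  have w1 : Wh (proc PW G 1) o r := W.wh.mono (sup_edge_le_step hxy)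
  have hu0 : ∀ z, z ≠ o → (proc PW G 2).Adj o z := univ_step w1
  have hu : ∀ j, ∀ z, z ≠ o → (proc PW G (2 + j)).Adj o z := fun j =>
    univ_mono (proc_mono PW G (by omega)) hu0
  set T := Nat.log 5 (Nat.card V) + 42 with hT
  by_cases hE : ∃ j ≤ T + 1, EventB o (proc PW G (2 + j))
  · obtain ⟨j, hj, hE⟩ := hE
    have htop : proc PW G (2 + j + 3) = ⊤ := event_top hcard (hu j) hE
    have htop' : proc PW G (2 + j + 3 + 1) = ⊤ := by
      rw [eq_top_iff, ← htop]; exact proc_le PW G _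
    have := runTime_le PW G (2 + j + 3) (htop.trans htop'.symm)
    omega
  · push Not at hE
    have hoff : ∀ j ≤ T + 1, off o (proc PW G (2 + j)) = sq (off o (proc PW G 2)) j := by
      intro j
      induction j with
      | zero => intro _; rfl
      | succ j ih =>
        intro hj
        have h1 := off_step (hu j) (by omega) (hE (j + 1) hj)
        have h2 := ih (by omega)
        change off o (step PW (proc PW G (2 + j))) = c6 (sq (off o (proc PW G 2)) j)
        rw [h1, h2]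
    have hnf : ¬ HasFan (sq (off o (proc PW G 2)) T) := by
      intro hf
      rw [← hoff T (by omega)] at hf
      exact hE T (by omega) (fan_event (hu T) hf)
    have hcore := core (off o (proc PW G 2)) (Nat.card V) le_rfl hnf
    have e1 := hoff T (by omega)
    have e2 := hoff (T + 1) le_rfl
    have e3 : off o (proc PW G (2 + T)) = off o (proc PW G (2 + (T + 1))) := by
      rw [e1, e2]; exact hcore
    have e4 : proc PW G (2 + T) = proc PW G (2 + T + 1) := by
      apply le_antisymm (proc_le PW G _)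
      intro a b hab
      by_cases ha : a = o
      · subst ha; exact hu T b hab.ne'
      by_cases hb : b = o
      · subst hb; exact (hu T a hab.ne).symm
      have : (off o (proc PW G (2 + (T + 1)))).Adj a b := ⟨hab, ha, hb⟩
      rw [← e3] at this
      exact this.1
    have := runTime_le PW G (2 + T) e4
    omega

/-- `M(n) ≤ log_5 n + 48` for the pendant wheel, `n ≥ 20`. -/
theorem upper_pendant (n : ℕ) (hn : 20 ≤ n) : maxTime PW n ≤ Nat.log 5 n + 48 := by
  apply maxTime_le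
  intro G
  have := upper_run (V := Fin n) (by simpa using hn) G
  simpa using this

end Q274.GB
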