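import Pool.Agent.Q274.GB.Defs

/-!
# Copies of the wheel `W_6` and of the wheel with a pendant edge at the hub
-/

set_option autoImplicit false

namespace Q274.GB

open SimpleGraph Function

variable {V : Type}

/-- A wheel in `G` with hub `h` and rim `r`. -/
structure Wh (G : SimpleGraph V) (h : V) (r : Fin 6 → V) : Prop where
  inj : Injective r
  hub : ∀ i, h ≠ r i
  spoke : ∀ i, G.Adj h (r i)
  rim : ∀ i, G.Adj (r i) (r (i + 1))

/-- A wheel with a pendant edge at the hub. -/
structure PWh (G : SimpleGraph V) (h : V) (r : Fin 6 → V) (p : V) : Prop where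
  wh : Wh G h r
  hp : h ≠ p
  rp : ∀ i, r i ≠ p
  adj : G.Adj h p

theorem Wh.mono {G G' : SimpleGraph V} (hle : G ≤ G') {h : V} {r : Fin 6 → V} (w : Wh G h r) :
    Wh G' h r := ⟨w.inj, w.hub, fun i => hle (w.spoke i), fun i => hle (w.rim i)⟩

@[simp] theorem snoc6 (r : Fin 6 → V) (h : V) : (Fin.snoc r h : Fin 7 → V) 6 = h :=
  Fin.snoc_last (α := fun _ => V) h r

theorem wheel_hom {G : SimpleGraph V} {h : V} {r : Fin 6 → V} (w : Wh G h r) (a b : Fin 7)
    (hab : wheel.Adj a b) :
    G.Adj ((Fin.snoc r h : Fin 7 → V) a) ((Fin.snoc r h : Fin 7 → V) b) := by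
  induction a using Fin.lastCases with
  | last =>
    induction b using Fin.lastCases with
    | last => exact absurd rfl hab.1
    | cast j => simpa using w.spoke j
  | cast i =>
    induction b using Fin.lastCases with
    | last => simpa using (w.spoke i).symm
    | cast j =>
      have key : ∀ i j : Fin 6, wheel.Adj i.castSucc j.castSucc → j = i + 1 ∨ i = j + 1 := by decide
      rcases key i j hab with h1 | h1
      · subst h1; simpa using w.rim i
      · subst h1; simpa using (w.rim j).symm

theorem snoc_inj {h : V} {r : Fin 6 → V} (hi : Injective r) (hh : ∀ i, h ≠ r i) :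
    Injective (Fin.snoc r h : Fin 7 → V) := by
  intro a b hab
  induction a using Fin.lastCases with
  | last =>
    induction b using Fin.lastCases with
    | last => rfl
    | cast j => simp at hab; exact absurd hab (hh j)
  | cast i =>
    induction b using Fin.lastCases with
    | last => simp at hab; exact absurd hab.symm (hh i)
    | cast j => simp at hab; rw [hi hab]

theorem wh_of_hom {G : SimpleGraph V} (f : Fin 7 → V) (hi : Injective f)
    (hf : ∀ a b, wheel.Adj a b → G.Adj (f a) (f b)) : Wh G (f 6) (fun i => f i.castSucc) where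
  inj := fun a b hab => Fin.castSucc_injective _ (hi hab)
  hub := fun i h => (by decide : ∀ i : Fin 6, (6 : Fin 7) ≠ i.castSucc) i (hi h)
  spoke := fun i => hf _ _ (by revert i; decide)
  rim := fun i => hf _ _ (by revert i; decide)

theorem hom_of_wh' {G : SimpleGraph V} (f : Fin 7 → V) (w : Wh G (f 6) (fun i => f i.castSucc))
    (a b : Fin 7) (hab : wheel.Adj a b) : G.Adj (f a) (f b) := by
  have h := wheel_hom w a b hab
  have e : (Fin.snoc (fun i : Fin 6 => f i.castSucc) (f 6) : Fin 7 → V) = f := by
    funext c
    induction c using Fin.lastCases with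
    | last => simp
    | cast j => simp
  rwa [e] at h

theorem newCopy_wheel (G : SimpleGraph V) (x y : V) :
    NewCopy wheel G x y ↔ ∃ h r, Wh (G ⊔ edge x y) h r ∧ ¬ Wh G h r := by
  constructor
  · rintro ⟨f, hi, hf, a, b, hab, hG⟩
    exact ⟨_, _, wh_of_hom f hi hf, fun w => hG (hom_of_wh' f w a b hab)⟩
  · rintro ⟨h, r, w, hw⟩
    by_contra hno
    apply hw
    have key : ∀ a b, wheel.Adj a b → G.Adj ((Fin.snoc r h : Fin 7 → V) a)
        ((Fin.snoc r h : Fin 7 → V) b) := by
      intro a b hab
      by_contra hG
      exact hno ⟨_, snoc_inj w.inj w.hub, wheel_hom w, a, b, hab, hG⟩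
    refine ⟨w.inj, w.hub, fun i => ?_, fun i => ?_⟩
    · have := key (Fin.last 6) i.castSucc (by revert i; decide)
      simpa using this
    · have := key i.castSucc (i + 1).castSucc (by revert i; decide)
      simpa using this

theorem newCopy_pendant (G : SimpleGraph V) (x y : V) :
    NewCopy (pendant wheel 6) G x y ↔ ∃ h r p, PWh (G ⊔ edge x y) h r p ∧ ¬ PWh G h r p := by
  constructor
  · rintro ⟨f, hi, hf, a, b, hab, hG⟩
    have w : Wh (G ⊔ edge x y) (f (some 6)) (fun i => f (some i.castSucc)) :=
      wh_of_hom (fun c => f (some c)) (fun c d h => Option.some_injective _ (hi h))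
        (fun c d hcd => hf (some c) (some d) hcd)
    refine ⟨f (some 6), fun i => f (some i.castSucc), f none, ⟨w, fun h => by simpa using hi h,
      fun i h => by simpa using hi h, hf (some 6) none rfl⟩, ?_⟩
    intro W
    apply hG
    rcases a with _ | a <;> rcases b with _ | b
    · exact absurd hab (by intro h; exact h)
    · have hb : b = 6 := hab
      subst hb; exact W.adj.symm
    · have ha : a = 6 := hab
      subst ha; exact W.adj
    · exact hom_of_wh' (fun c => f (some c)) W.wh a b hab
  · rintro ⟨h, r, p, W, hW⟩
    by_contra hno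
    apply hW
    let f : Option (Fin 7) → V := fun o => o.elim p (Fin.snoc r h : Fin 7 → V)
    have hne : ∀ a, (Fin.snoc r h : Fin 7 → V) a ≠ p := by
      intro a
      induction a using Fin.lastCases with
      | last => simpa using W.hp
      | cast i => simpa using W.rp i
    have hinj : Injective f := by
      rintro (_ | a) (_ | b) hab
      · rfl
      · exact absurd hab.symm (hne b)
      · exact absurd hab (hne a)
      · exact congrArg some (snoc_inj W.wh.inj W.wh.hub hab)
    have hhom : ∀ a b, (pendant wheel 6).Adj a b → (G ⊔ edge x y).Adj (f a) (f b) := by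
      rintro (_ | a) (_ | b) hab
      · exact absurd hab (by intro h; exact h)
      · have hb : b = 6 := hab
        subst hb
        have : (Fin.snoc r h : Fin 7 → V) 6 = h := Fin.snoc_last (α := fun _ => V) h r
        change (G ⊔ edge x y).Adj p ((Fin.snoc r h : Fin 7 → V) 6)
        rw [this]; exact W.adj.symm
      · have ha : a = 6 := hab
        subst ha
        have : (Fin.snoc r h : Fin 7 → V) 6 = h := Fin.snoc_last (α := fun _ => V) h r
        change (G ⊔ edge x y).Adj ((Fin.snoc r h : Fin 7 → V) 6) p
        rw [this]; exact W.adj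
      · exact wheel_hom W.wh a b hab
    have key : ∀ a b, (pendant wheel 6).Adj a b → G.Adj (f a) (f b) := by
      intro a b hab
      by_contra hG
      exact hno ⟨f, hinj, hhom, a, b, hab, hG⟩
    refine ⟨⟨W.wh.inj, W.wh.hub, fun i => ?_, fun i => ?_⟩, W.hp, W.rp, ?_⟩
    · have hw : wheel.Adj (Fin.last 6) i.castSucc := by revert i; decide
      have := key (some (Fin.last 6)) (some i.castSucc) hw
      simpa [f] using this
    · have hw : wheel.Adj i.castSucc (i + 1).castSucc := by revert i; decide
      have := key (some i.castSucc) (some (i + 1).castSucc) hw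
      simpa [f] using this
    · have := key (some (Fin.last 6)) none rfl
      simpa [f] using this

/-- adjacency after adding an edge -/
theorem sup_edge_adj {G : SimpleGraph V} {x y a b : V} :
    (G ⊔ edge x y).Adj a b ↔ G.Adj a b ∨ (a ≠ b ∧ ((a = x ∧ b = y) ∨ (a = y ∧ b = x))) := by
  rw [sup_adj, edge_adj]
  tauto

end Q274.GB
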